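import Pool.Agent.Work.MP_286f1f_ag.Defs
import Pool.Agent.Work.MP_286f1f_ag.Bd.B01

/-! Bundle of small proof modules (one section per former module). -/

section

/-!
The function `H` on ideals of `k[[t]][X]/(f)`.
-/

set_option autoImplicit false

open Filter Polynomial

namespace HMTW

/-- C2 -/
theorem exists_H (k : Type) [Field k] (f : (PowerSeries k)[X]) (hf : f.Monic)
    (a b : (PowerSeries k)[X]) (δ : PowerSeries k) (hδ : δ ≠ 0)
    (hab : a * f + b * derivative f = C δ) (g : PowerSeries k) (hg : g ≠ 0) :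
    ∃ (H : Ideal (AdjoinRoot f) → ℕ) (D : ℕ),
      (∀ K K' : Ideal (AdjoinRoot f), (∃ n, AdjoinRoot.of f (PowerSeries.X ^ n) ∈ K) →
        (∃ n, AdjoinRoot.of f (PowerSeries.X ^ n) ∈ K') → H (K * K') ≤ H K + H K') ∧
      (∀ K K' : Ideal (AdjoinRoot f), (∃ n, AdjoinRoot.of f (PowerSeries.X ^ n) ∈ K) →
        K ≤ K' → H K' ≤ H K) ∧
      H ⊤ = 0 ∧
      (∀ K K' : Ideal (AdjoinRoot f), (∃ n, AdjoinRoot.of f (PowerSeries.X ^ n) ∈ K) →
        (∀ v ∈ K', AdjoinRoot.of f g * v ∈ K) →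
        (H K : ℕ∞) ≤ Module.length k (AdjoinRoot f ⧸ K') + (D : ℕ∞)) ∧
      (∀ (K : Ideal (AdjoinRoot f)) (q : ℕ), (∃ n, AdjoinRoot.of f (PowerSeries.X ^ n) ∈ K) →
        (∀ v ∈ K, AdjoinRoot.of f g * v ∈ Ideal.span {AdjoinRoot.of f (PowerSeries.X ^ q)}) →
        f.natDegree * q ≤ H K + D) := by
  obtain ⟨B, iB, iSB, φ, hfree, hfinite, hrank, ⟨s, hs, hsb⟩, hprin⟩ :=
    exists_overring f hf a b δ hδ hab
  let _ : Algebra k B := ((algebraMap (PowerSeries k) B).comp
    (algebraMap k (PowerSeries k))).toAlgebra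
  have : IsScalarTower k (PowerSeries k) B := IsScalarTower.of_algebraMap_eq fun _ => rfl
  have : Module.Free (PowerSeries k) (AdjoinRoot f) := hf.free_adjoinRoot
  have : Module.Finite (PowerSeries k) (AdjoinRoot f) := hf.finite_adjoinRoot
  have h := exists_H_of_overring (R₁ := AdjoinRoot f) φ s hs hsb hprin g hg
  rw [hrank] at h
  exact h

end HMTW

end

section

/-! The asymptotic lower bound from the weights. -/

set_option autoImplicit false

open Filter Polynomial

namespace HMTW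

/-- the inequality between the arithmetic and the geometric mean -/
theorem li_amgm (m : ℕ) (μ : Fin m → ℝ) (hμ : ∀ l, 0 < μ l) (r : ℝ) (hr : 0 < r) :
    ((m + 1 : ℕ) : ℝ) ^ (m + 1) * (r * ∏ l, μ l) ≤ ((∑ l, μ l) + r) ^ (m + 1) := by
  let z : Fin (m + 1) → ℝ := Fin.cons r μ
  have hz : ∀ i ∈ (Finset.univ : Finset (Fin (m + 1))), 0 ≤ z i := by
    intro i _
    refine Fin.cases ?_ (fun l => ?_) i
    · exact hr.le
    · exact (hμ l).le
  have h := Real.geom_mean_le_arith_mean Finset.univ (fun _ => (1 : ℝ)) z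
    (fun _ _ => zero_le_one) (by simp; positivity) hz
  have e1 : ∏ i, z i ^ (1 : ℝ) = r * ∏ l, μ l := by
    rw [Fin.prod_univ_succ]
    simp [z]
  have e2 : ∑ i, (1 : ℝ) * z i = (∑ l, μ l) + r := by
    rw [Fin.sum_univ_succ]
    simp [z]
    ring
  have e3 : ∑ _i : Fin (m + 1), (1 : ℝ) = ((m + 1 : ℕ) : ℝ) := by simp
  rw [e1, e2, e3] at h
  have hP : 0 ≤ r * ∏ l, μ l := mul_nonneg hr.le (Finset.prod_nonneg fun l _ => (hμ l).le)
  have hm : (0 : ℝ) < ((m + 1 : ℕ) : ℝ) := by positivity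
  have h2 := pow_le_pow_left₀ (Real.rpow_nonneg hP _) h (m + 1)
  rw [Real.rpow_inv_natCast_pow hP (by omega), div_pow, le_div_iff₀ (by positivity)] at h2
  linarith

theorem liminf_of_weights (m : ℕ) (G : ℕ → (Fin m → ℕ) → ℕ) (r : ℕ) (hr : 0 < r)
    (c : ℝ) (hc : 0 < c) (μ : Fin m → ℝ) (hμ : ∀ l, 0 < μ l)
    (hG : ∀ (n : ℕ) (i : Fin m → ℕ), 1 ≤ n →
        (n : ℝ) * ((∑ l, μ l) + r) / c - ∑ l, μ l * (i l : ℝ) ≤ (G n i : ℝ))
    (L : ℕ → ℝ) (C' : ℝ)
    (hL : ∀ (n : ℕ) (S : Finset (Fin m → ℕ)), ∑ i ∈ S, max 0 ((G n i : ℝ) - C') ≤ L n)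
    (ε : ℝ) (hε : 0 < ε) : ∀ᶠ n : ℕ in atTop,
      ((r : ℝ) * kapp (m + 1) c - ε) * (n : ℝ) ^ (m + 1) ≤ L n := by
  have hr' : (0 : ℝ) < r := by exact_mod_cast hr
  set A : ℝ := ((∑ l, μ l) + r) / c with hA
  have hsum : 0 ≤ ∑ l, μ l := Finset.sum_nonneg fun l _ => (hμ l).le
  have hA0 : 0 < A := by rw [hA]; positivity
  set P : ℝ := ((m + 1).factorial : ℝ) * ∏ l, μ l with hP
  have hP0 : 0 < P := mul_pos (by positivity) (Finset.prod_pos fun l _ => hμ l)
  -- the limit
  have hlim : Tendsto (fun n : ℕ => (A - C' / (n : ℝ)) ^ (m + 1) / P) atTop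
      (nhds (A ^ (m + 1) / P)) := by
    have h1 : Tendsto (fun n : ℕ => C' / (n : ℝ)) atTop (nhds 0) :=
      tendsto_const_nhds.div_atTop tendsto_natCast_atTop_atTop
    have h2 := ((tendsto_const_nhds (x := A)).sub h1).pow (m + 1)
    rw [sub_zero] at h2
    exact h2.div_const P
  have hlow : (r : ℝ) * kapp (m + 1) c ≤ A ^ (m + 1) / P := by
    have h1 := li_amgm m μ hμ r hr'
    have hf : (0 : ℝ) < ((m + 1).factorial : ℝ) := by positivity
    have hprod : 0 < ∏ l, μ l := Finset.prod_pos fun l _ => hμ l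
    have e1 : (r : ℝ) * kapp (m + 1) c =
        (((m + 1 : ℕ) : ℝ) ^ (m + 1) * (r * ∏ l, μ l)) / (c ^ (m + 1) * P) := by
      rw [kapp, hP]
      field_simp
    have e2 : A ^ (m + 1) / P = ((∑ l, μ l) + r) ^ (m + 1) / (c ^ (m + 1) * P) := by
      rw [hA, div_pow, div_div]
    rw [e1, e2]
    exact div_le_div_of_nonneg_right h1 (by positivity)
  have hev : ∀ᶠ n : ℕ in atTop, (r : ℝ) * kapp (m + 1) c - ε <
      (A - C' / (n : ℝ)) ^ (m + 1) / P := hlim.eventually_const_lt (by linarith)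
  have hev2 : ∀ᶠ n : ℕ in atTop, C' / A ≤ (n : ℝ) :=
    tendsto_natCast_atTop_atTop.eventually_ge_atTop _
  filter_upwards [hev, hev2, eventually_ge_atTop 1] with n h1 h2 h3
  have hn : (0 : ℝ) < n := by exact_mod_cast h3
  have hT : 0 ≤ n * A - C' := by
    rw [div_le_iff₀ hA0] at h2
    linarith
  obtain ⟨B, hB⟩ := sum_bound m μ hμ (n * A - C') hT
  have h4 : ∑ i ∈ Fintype.piFinset (fun _ : Fin m => Finset.range B),
      max 0 ((n * A - C') - ∑ l, μ l * (i l : ℝ)) ≤ L n := by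
    refine le_trans (Finset.sum_le_sum fun i _ => ?_) (hL n _)
    refine max_le_max le_rfl ?_
    have := hG n i h3
    have e : (n : ℝ) * ((∑ l, μ l) + r) / c = n * A := by rw [hA]; ring
    rw [e] at this
    linarith
  refine le_trans ?_ (hB.trans h4)
  have e3 : (n * A - C') ^ (m + 1) / P = (A - C' / (n : ℝ)) ^ (m + 1) / P * (n : ℝ) ^ (m + 1) := by
    rw [div_mul_eq_mul_div, ← mul_pow]
    congr 2
    field_simp
  rw [e3]
  exact mul_le_mul_of_nonneg_right h1.le (by positivity)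

/-- A3 -/
theorem liminf_bound (m : ℕ) (G : ℕ → (Fin m → ℕ) → ℕ) (r : ℕ) (hr : 0 < r) (C : ℝ)
    (hsub : ∀ (n n' : ℕ) (i i' : Fin m → ℕ), G (n + n') (i + i') ≤ G n i + G n' i')
    (s : ℕ) (hs : ∀ l, G 1 (Pi.single l s) = 0)
    (q N : ℕ → ℕ) (hq : Tendsto q atTop atTop) (c : ℝ)
    (hc : Tendsto (fun e => (N e : ℝ) / (q e : ℝ)) atTop (nhds c))
    (hlow : ∀ (e n : ℕ) (i : Fin m → ℕ), N e ≤ n → (∀ l, i l < q e) →
      (r : ℝ) * q e - C ≤ G n i)
    (L : ℕ → ℝ) (C' : ℝ)
    (hL : ∀ (n : ℕ) (S : Finset (Fin m → ℕ)), ∑ i ∈ S, max 0 ((G n i : ℝ) - C') ≤ L n) :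
    0 < c ∧ ∀ ε : ℝ, 0 < ε → ∀ᶠ n : ℕ in atTop,
      ((r : ℝ) * kapp (m + 1) c - ε) * (n : ℝ) ^ (m + 1) ≤ L n := by
  obtain ⟨hc0, μ, hμ, hG⟩ := exists_weights m G r hr C hsub s hs q N hq c hc hlow
  exact ⟨hc0, fun ε hε => liminf_of_weights m G r hr c hc0 μ hμ hG L C' hL ε hε⟩

end HMTW

end

section

/-!
Existence of the coefficient ideals.
-/

set_option autoImplicit false

open Filter Polynomial

namespace HMTW

/-- `Pr` as a `k`-algebra homomorphism. -/
noncomputable def PrAlg (k : Type*) [Field k] (m : ℕ) (f : (MvPowerSeries (Fin (m + 2)) k)[X]) :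
    AdjoinRoot f →ₐ[k] AdjoinRoot (f.map (pr k m)) :=
  { Pr k m f with
    commutes' := by
      intro r
      have h1 : algebraMap k (AdjoinRoot f) r =
          AdjoinRoot.of f (algebraMap k (MvPowerSeries (Fin (m + 2)) k) r) := rfl
      have h2 : algebraMap k (AdjoinRoot (f.map (pr k m))) r =
          AdjoinRoot.of (f.map (pr k m)) (algebraMap k (MvPowerSeries (Fin (m + 1)) k) r) := rfl
      have h3 : pr k m (algebraMap k (MvPowerSeries (Fin (m + 2)) k) r) =
          algebraMap k (MvPowerSeries (Fin (m + 1)) k) r := by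
        ext x
        rw [coeff_pr]
        classical
        rw [MvPowerSeries.algebraMap_apply, MvPowerSeries.algebraMap_apply,
          MvPowerSeries.coeff_C, MvPowerSeries.coeff_C]
        have : (x.cons 0 : Fin (m + 1 + 1) →₀ ℕ) = 0 ↔ x = 0 := by
          constructor
          · intro h
            ext l
            have := DFunLike.congr_fun h l.succ
            simpa using this
          · intro h
            rw [h]
            exact Finsupp.cons_zero_zero
        simp only [this]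
      change Pr k m f _ = _
      rw [h1, h2, Pr_of, h3] }

@[simp] theorem PrAlg_apply (k : Type*) [Field k] (m : ℕ)
    (f : (MvPowerSeries (Fin (m + 2)) k)[X]) (u : AdjoinRoot f) :
    PrAlg k m f u = Pr k m f u := rfl

/-- The colon ideals. -/
noncomputable def Tc (k : Type*) [Field k] (m : ℕ) (f : (MvPowerSeries (Fin (m + 2)) k)[X])
    (I : Ideal (AdjoinRoot f)) (j : ℕ) : Ideal (AdjoinRoot (f.map (pr k m))) :=
  Ideal.map (Pr k m f) (Submodule.comap
    (LinearMap.mulLeft (AdjoinRoot f) ((AdjoinRoot.of f (MvPowerSeries.X 0)) ^ j)) I)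

theorem mem_Tc {k : Type*} [Field k] {m : ℕ} {f : (MvPowerSeries (Fin (m + 2)) k)[X]}
    {I : Ideal (AdjoinRoot f)} {j : ℕ} {v : AdjoinRoot (f.map (pr k m))} :
    v ∈ Tc k m f I j ↔
      ∃ u, (AdjoinRoot.of f (MvPowerSeries.X 0)) ^ j * u ∈ I ∧ Pr k m f u = v := by
  rw [Tc, Ideal.mem_map_iff_of_surjective _ (Pr_surjective k m f)]
  rfl

theorem sp_zero_surjective (k : Type*) [Field k] : Function.Surjective (sp k 0) := by
  intro φ
  obtain ⟨a, ha⟩ : ∃ a : MvPowerSeries (Fin (0 + 1)) k,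
      ∀ i, MvPowerSeries.coeff i a = PowerSeries.coeff (i 0) φ :=
    ⟨fun i => PowerSeries.coeff (i 0) φ, fun i => rfl⟩
  refine ⟨a, ?_⟩
  ext n
  rw [coeff_sp, ha]
  simp

theorem Sp_zero_surjective (k : Type*) [Field k] (f : (MvPowerSeries (Fin (0 + 1)) k)[X]) :
    Function.Surjective (Sp k 0 f) := by
  intro v
  obtain ⟨P, rfl⟩ := AdjoinRoot.mk_surjective v
  obtain ⟨Q, hQ⟩ := Polynomial.map_surjective (sp k 0) (sp_zero_surjective k) P
  exact ⟨AdjoinRoot.mk f Q, by rw [Sp_mk, hQ]⟩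

/-- `Sp` as a `k`-linear map. -/
noncomputable def SpLin (k : Type*) [Field k] (m : ℕ) (f : (MvPowerSeries (Fin (m + 1)) k)[X]) :
    AdjoinRoot f →ₐ[k] AdjoinRoot (f.map (sp k m)) :=
  { Sp k m f with
    commutes' := by
      intro r
      have h1 : algebraMap k (AdjoinRoot f) r =
          AdjoinRoot.of f (algebraMap k (MvPowerSeries (Fin (m + 1)) k) r) := rfl
      have h2 : algebraMap k (AdjoinRoot (f.map (sp k m))) r =
          AdjoinRoot.of (f.map (sp k m)) (algebraMap k (PowerSeries k) r) := rfl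
      have h3 : sp k m (algebraMap k (MvPowerSeries (Fin (m + 1)) k) r) =
          algebraMap k (PowerSeries k) r := by
        ext n
        rw [coeff_sp]
        classical
        rw [MvPowerSeries.algebraMap_apply, PowerSeries.algebraMap_apply,
          MvPowerSeries.coeff_C, PowerSeries.coeff_C]
        simp
      change Sp k m f _ = _
      rw [h1, h2, Sp_of, h3] }

/-- B: existence of the coefficient ideals -/
theorem exists_K (k : Type*) [Field k] (m : ℕ) (f : (MvPowerSeries (Fin (m + 1)) k)[X])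
    (hf : f.Monic) (F : (PowerSeries k)[X]) (hF : f.map (sp k m) = F) :
    ∃ K : Ideal (AdjoinRoot f) → (Fin m → ℕ) → Ideal (AdjoinRoot F),
      (∀ I I' i i', K I i * K I' i' ≤ K (I * I') (i + i')) ∧
      (∀ I I' i, I ≤ I' → K I i ≤ K I' i) ∧
      (∀ (I : Ideal (AdjoinRoot f)) (S : Finset (Fin m → ℕ)),
        ∑ i ∈ S, Module.length k (AdjoinRoot F ⧸ K I i) ≤ Module.length k (AdjoinRoot f ⧸ I)) ∧
      (∀ (g : MvPowerSeries (Fin (m + 1)) k) (I : Ideal (AdjoinRoot f)) (q : ℕ),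
        (∀ u ∈ I, AdjoinRoot.of f g * u ∈ (qI k (m + 1) q).map (AdjoinRoot.of f)) →
        ∀ i : Fin m → ℕ, (∀ l, i l < q) → ∀ v ∈ K I i,
          AdjoinRoot.of F (sp k m g) * v ∈
            Ideal.span {AdjoinRoot.of F (PowerSeries.X ^ q)}) ∧
      (∀ (I : Ideal (AdjoinRoot f)) (l : Fin m) (n : ℕ),
        AdjoinRoot.of f (MvPowerSeries.X l.castSucc ^ n) ∈ I → K I (Pi.single l n) = ⊤) ∧
      (∀ (I : Ideal (AdjoinRoot f)) (i : Fin m → ℕ) (P : (MvPowerSeries (Fin (m + 1)) k)[X]),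
        AdjoinRoot.mk f P ∈ I → AdjoinRoot.mk F (P.map (sp k m)) ∈ K I i) ∧
      (∀ (I I' : Ideal (AdjoinRoot f)) (g : MvPowerSeries (Fin (m + 1)) k) (i : Fin m → ℕ),
        (∀ u ∈ I', AdjoinRoot.of f g * u ∈ I) →
        ∀ v ∈ K I' i, AdjoinRoot.of F (sp k m g) * v ∈ K I i) := by
  induction m with
  | zero =>
    subst hF
    have hmem : ∀ (I : Ideal (AdjoinRoot f)) (v : AdjoinRoot (f.map (sp k 0))),
        v ∈ I.map (Sp k 0 f) ↔ ∃ u ∈ I, Sp k 0 f u = v := fun I v =>
      Ideal.mem_map_iff_of_surjective _ (Sp_zero_surjective k f)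
    refine ⟨fun I _ => I.map (Sp k 0 f), ?_, ?_, ?_, ?_, ?_, ?_, ?_⟩
    · intro I I' _ _
      rw [← Ideal.map_mul]
    · intro I I' _ h
      exact Ideal.map_mono h
    · intro I S
      have hle : Module.length k (AdjoinRoot (f.map (sp k 0)) ⧸ I.map (Sp k 0 f)) ≤
          Module.length k (AdjoinRoot f ⧸ I) := by
        have hcomp : I ≤ (I.map (Sp k 0 f)).comap (SpLin k 0 f) := fun u hu =>
          Ideal.mem_map_of_mem (Sp k 0 f) hu
        refine Module.length_le_of_surjective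
          (Ideal.quotientMapₐ (I.map (Sp k 0 f)) (SpLin k 0 f) hcomp).toLinearMap ?_
        intro v
        obtain ⟨v, rfl⟩ := Ideal.Quotient.mk_surjective v
        obtain ⟨u, rfl⟩ := Sp_zero_surjective k f v
        exact ⟨Ideal.Quotient.mk _ u, rfl⟩
      have hS : S ⊆ {0} := fun i _ => by
        rw [Finset.mem_singleton]
        exact Subsingleton.elim _ _
      refine le_trans (Finset.sum_le_sum_of_subset hS) ?_
      rw [Finset.sum_singleton]
      exact hle
    · intro g I q h i _ v hv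
      obtain ⟨u, hu, rfl⟩ := (hmem I v).1 hv
      rw [← Sp_of, ← map_mul]
      have h1 := Ideal.mem_map_of_mem (Sp k 0 f) (h u hu)
      refine (?_ : Ideal.map (Sp k 0 f) (Ideal.map (AdjoinRoot.of f) (qI k (0 + 1) q)) ≤ _) h1
      rw [Ideal.map_le_iff_le_comap, Ideal.map_le_iff_le_comap]
      intro a ha
      rw [Ideal.mem_comap, Ideal.mem_comap, Sp_of]
      have hdvd : (PowerSeries.X : PowerSeries k) ^ q ∣ sp k 0 a := by
        rw [PowerSeries.X_pow_dvd_iff]
        intro n hn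
        rw [coeff_sp]
        apply ha
        intro l
        have : l = Fin.last 0 := Fin.ext (by omega)
        rw [this]
        simpa using hn
      obtain ⟨b, hb⟩ := hdvd
      rw [hb, map_mul]
      exact Ideal.mul_mem_right _ _ (Ideal.subset_span rfl)
    · intro I l
      exact l.elim0
    · intro I i P hP
      rw [← Sp_mk]
      exact Ideal.mem_map_of_mem _ hP
    · intro I I' g i h v hv
      obtain ⟨u, hu, rfl⟩ := (hmem I' v).1 hv
      rw [← Sp_of, ← map_mul]
      exact Ideal.mem_map_of_mem _ (h u hu)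
  | succ m ih =>
    have hF1 : (f.map (pr k m)).map (sp k m) = F := by
      rw [Polynomial.map_map, sp_comp_pr, hF]
    obtain ⟨K0, h1, h2, h3, h4, h5, h6, h7⟩ := ih (f.map (pr k m)) (hf.map _) hF1
    have hsp : ∀ g : MvPowerSeries (Fin (m + 2)) k, sp k m (pr k m g) = sp k (m + 1) g := by
      intro g
      rw [← sp_comp_pr]
      rfl
    refine ⟨fun I i => K0 (Tc k m f I (i 0)) (fun l => i l.succ), ?_, ?_, ?_, ?_, ?_, ?_, ?_⟩
    · intro I I' i i'
      refine le_trans (h1 _ _ _ _) (h2 _ _ _ ?_)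
      rw [Ideal.mul_le]
      intro v hv v' hv'
      obtain ⟨u, hu, rfl⟩ := mem_Tc.1 hv
      obtain ⟨u', hu', rfl⟩ := mem_Tc.1 hv'
      refine mem_Tc.2 ⟨u * u', ?_, map_mul _ _ _⟩
      have : (AdjoinRoot.of f (MvPowerSeries.X 0)) ^ ((i + i') 0) * (u * u') =
          ((AdjoinRoot.of f (MvPowerSeries.X 0)) ^ (i 0) * u) *
          ((AdjoinRoot.of f (MvPowerSeries.X 0)) ^ (i' 0) * u') := by
        rw [Pi.add_apply, pow_add]
        ring
      rw [this]
      exact Ideal.mul_mem_mul hu hu'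
    · intro I I' i h
      refine h2 _ _ _ ?_
      intro v hv
      obtain ⟨u, hu, rfl⟩ := mem_Tc.1 hv
      exact mem_Tc.2 ⟨u, h hu, rfl⟩
    · intro I S
      obtain ⟨B, hB⟩ : ∃ B : ℕ, ∀ i ∈ S, i 0 < B := by
        refine ⟨S.sup (fun i => i 0) + 1, fun i hi => ?_⟩
        have := Finset.le_sup (f := fun i : Fin (m + 1) → ℕ => i 0) hi
        exact Nat.lt_succ_of_le this
      have hcol := colon_length (PrAlg k m f) (Pr_surjective k m f)
        (AdjoinRoot.of f (MvPowerSeries.X 0)) (ker_Pr k m f hf) I (Tc k m f I)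
        (fun j v => mem_Tc) B
      refine le_trans ?_ hcol
      classical
      rw [← Finset.sum_fiberwise_of_maps_to (s := S) (t := Finset.range B) (g := fun i => i 0)
        (fun i hi => Finset.mem_range.2 (hB i hi))]
      refine Finset.sum_le_sum fun j _ => ?_
      have hinj : Set.InjOn (fun (i : Fin (m + 1) → ℕ) (l : Fin m) => i l.succ)
          (S.filter (fun i => i 0 = j)) := by
        intro i hi i' hi' h
        have e1 := (Finset.mem_filter.1 hi).2
        have e2 := (Finset.mem_filter.1 hi').2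
        funext l
        refine Fin.cases ?_ (fun l' => ?_) l
        · rw [e1, e2]
        · exact congrFun h l'
      refine le_trans (le_of_eq ?_) (h3 (Tc k m f I j)
        ((S.filter (fun i => i 0 = j)).image (fun i l => i l.succ)))
      rw [Finset.sum_image hinj]
      refine Finset.sum_congr rfl fun i hi => ?_
      obtain ⟨_, e⟩ := Finset.mem_filter.1 hi
      subst e
      rfl
    · intro g I q h i hi v hv
      rw [← hsp]
      refine h4 (pr k m g) (Tc k m f I (i 0)) q ?_ _ (fun l => hi l.succ) v hv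
      intro w hw
      obtain ⟨u, hu, rfl⟩ := mem_Tc.1 hw
      rw [← Pr_of, ← map_mul]
      refine Pr_mem k m f hf _ q (i 0) (hi 0) ?_
      have := h _ hu
      have e : AdjoinRoot.of f (MvPowerSeries.X 0) ^ (i 0) * (AdjoinRoot.of f g * u) =
          AdjoinRoot.of f g * (AdjoinRoot.of f (MvPowerSeries.X 0) ^ (i 0) * u) := by ring
      rw [e]
      exact this
    · intro I l n h
      have htop : ∀ j : ℕ, AdjoinRoot.of f (MvPowerSeries.X 0 ^ j) ∈ I → ∀ i : Fin m → ℕ,
          K0 (Tc k m f I j) i = ⊤ := by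
        intro j hj i
        rw [Ideal.eq_top_iff_one]
        have := h6 (Tc k m f I j) i 1 (mem_Tc.2 ⟨1, by rw [mul_one, ← map_pow]; exact hj, by
          rw [map_one, map_one]⟩)
        rwa [Polynomial.map_one, map_one] at this
      induction l using Fin.cases with
      | zero =>
        refine htop _ ?_ _
        rw [Pi.single_eq_same]
        exact h
      | succ l' =>
        have e1 : (Pi.single l'.succ n : Fin (m + 1) → ℕ) 0 = 0 := by
          rw [Pi.single_eq_of_ne (Fin.succ_ne_zero l').symm]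
        have e2 : (fun l : Fin m => (Pi.single l'.succ n : Fin (m + 1) → ℕ) l.succ) =
            Pi.single l' n := by
          funext l
          by_cases hl : l = l'
          · rw [hl, Pi.single_eq_same, Pi.single_eq_same]
          · rw [Pi.single_eq_of_ne hl, Pi.single_eq_of_ne]
            intro h'
            exact hl (Fin.succ_injective _ h')
        change K0 (Tc k m f I ((Pi.single l'.succ n : Fin (m + 1) → ℕ) 0))
          (fun l : Fin m => (Pi.single l'.succ n : Fin (m + 1) → ℕ) l.succ) = ⊤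
        rw [e1, e2]
        refine h5 _ l' n ?_
        refine mem_Tc.2 ⟨AdjoinRoot.of f (MvPowerSeries.X l'.succ.castSucc ^ n), ?_, ?_⟩
        · rw [pow_zero, one_mul]
          exact h
        · rw [Pr_of, map_pow]
          have : l'.succ.castSucc = l'.castSucc.succ := rfl
          rw [this, pr_X_succ]
    · intro I i P hP
      have e : P.map (sp k (m + 1)) = (P.map (pr k m)).map (sp k m) := by
        rw [Polynomial.map_map, sp_comp_pr]
      rw [e]
      refine h6 _ _ _ ?_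
      refine mem_Tc.2 ⟨AdjoinRoot.mk f P, Ideal.mul_mem_left _ _ hP, ?_⟩
      rw [Pr_mk]
    · intro I I' g i h v hv
      rw [← hsp]
      refine h7 _ _ (pr k m g) _ ?_ v hv
      intro w hw
      obtain ⟨u, hu, rfl⟩ := mem_Tc.1 hw
      rw [← Pr_of, ← map_mul]
      refine mem_Tc.2 ⟨_, ?_, rfl⟩
      have := h _ hu
      have e : AdjoinRoot.of f (MvPowerSeries.X 0) ^ (i 0) * (AdjoinRoot.of f g * u) =
          AdjoinRoot.of f g * (AdjoinRoot.of f (MvPowerSeries.X 0) ^ (i 0) * u) := by ring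
      rw [e]
      exact this

end HMTW

end

section

set_option autoImplicit false

open Filter Polynomial

namespace HMTW

theorem sp_X_last (k : Type*) [Field k] (m : ℕ) :
    sp k m (MvPowerSeries.X (Fin.last m)) = PowerSeries.X := by
  classical
  ext n
  rw [coeff_sp, MvPowerSeries.coeff_X, PowerSeries.coeff_X]
  by_cases hn : n = 1
  · subst hn; simp
  · rw [if_neg hn, if_neg]
    intro h
    exact hn (Finsupp.single_injective _ h)

theorem pow_mem_of_mul_le {R : Type*} [CommRing R] (I : ℕ → Ideal R)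
    (hmul : ∀ n n', I n * I n' ≤ I (n + n')) (n : ℕ) : I 1 ^ (n + 1) ≤ I (n + 1) := by
  induction n with
  | zero => rw [pow_one]
  | succ n ih =>
    rw [pow_succ]
    exact (Ideal.mul_mono_left ih).trans (hmul _ _)

/-- D1 -/
theorem core (k : Type) [Field k] (m : ℕ) (f : (MvPowerSeries (Fin (m + 1)) k)[X])
    (hf : f.Monic) (hdeg : 0 < f.natDegree) (a b : (MvPowerSeries (Fin (m + 1)) k)[X])
    (δ g : MvPowerSeries (Fin (m + 1)) k) (hab : a * f + b * derivative f = C δ)
    (hsp : sp k m (δ * g) ≠ 0)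
    (I : ℕ → Ideal (AdjoinRoot f)) (hmul : ∀ n n', I n * I n' ≤ I (n + n')) (hanti : Antitone I)
    (s : ℕ) (hs : ((Ideal.span (Set.range MvPowerSeries.X)) ^ s).map (AdjoinRoot.of f) ≤ I 1)
    (q N : ℕ → ℕ) (hq : Tendsto q atTop atTop) (c : ℝ)
    (hc : Tendsto (fun e => (N e : ℝ) / (q e : ℝ)) atTop (nhds c))
    (hN : ∀ e, ∀ u ∈ I (N e), AdjoinRoot.of f g * u ∈
      (Ideal.span (Set.range fun i => MvPowerSeries.X i ^ q e)).map (AdjoinRoot.of f))
    (I' : ℕ → Ideal (AdjoinRoot f)) (hI : ∀ n, I n ≤ I' n)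
    (hI' : ∀ n, ∀ u ∈ I' n, AdjoinRoot.of f g * u ∈ I n) :
    0 < c ∧ ∀ ε : ℝ, 0 < ε → ∀ᶠ n : ℕ in atTop,
      ((f.natDegree : ℝ) * kapp (m + 1) c - ε) * (n : ℝ) ^ (m + 1) ≤
        ((Module.length k (AdjoinRoot f ⧸ I' n)).toNat : ℝ) := by
  classical
  set F := f.map (sp k m) with hF
  have hFm : F.Monic := hf.map _
  have hFdeg : F.natDegree = f.natDegree := hf.natDegree_map _
  obtain ⟨K, hKmul, hKmono, hKlen, hKq, hKtop, hKmem, hKg⟩ := exists_K k m f hf F rfl
  have hsp' : sp k m δ ≠ 0 ∧ sp k m g ≠ 0 := by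
    rw [map_mul] at hsp
    exact ⟨left_ne_zero_of_mul hsp, right_ne_zero_of_mul hsp⟩
  have hab' : a.map (sp k m) * F + b.map (sp k m) * derivative F = C (sp k m δ) := by
    have := congrArg (Polynomial.map (sp k m)) hab
    rwa [Polynomial.map_add, Polynomial.map_mul, Polynomial.map_mul, Polynomial.map_C,
      ← Polynomial.derivative_map] at this
  obtain ⟨H, D0, hHmul, hHanti, hHtop, hHlen, hHq⟩ := exists_H k F hFm _ _ _ hsp'.1 hab'
    (sp k m g) hsp'.2
  -- each `I n` contains a power of the maximal ideal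
  have hpow : ∀ n, ∃ e, ((Ideal.span (Set.range MvPowerSeries.X)) ^ e).map
      (AdjoinRoot.of f) ≤ I n := by
    intro n
    cases n with
    | zero => exact ⟨s, hs.trans (hanti (Nat.zero_le 1))⟩
    | succ n =>
      refine ⟨s * (n + 1), ?_⟩
      rw [pow_mul, Ideal.map_pow]
      exact (Ideal.pow_right_mono hs _).trans (pow_mem_of_mul_le I hmul n)
  have hXK : ∀ n (i : Fin m → ℕ), ∃ e, AdjoinRoot.of F (PowerSeries.X ^ e) ∈ K (I n) i := by
    intro n i
    obtain ⟨e, he⟩ := hpow n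
    refine ⟨e, ?_⟩
    have h1 : AdjoinRoot.mk f (C (MvPowerSeries.X (Fin.last m) ^ e)) ∈ I n := by
      apply he
      rw [AdjoinRoot.mk_C]
      apply Ideal.mem_map_of_mem
      exact Ideal.pow_mem_pow (Ideal.subset_span (Set.mem_range_self _)) e
    have h2 := hKmem (I n) i _ h1
    rwa [Polynomial.map_C, AdjoinRoot.mk_C, map_pow (sp k m), sp_X_last] at h2
  have hMf : Module.Finite (MvPowerSeries (Fin (m + 1)) k) (AdjoinRoot f) := hf.finite_adjoinRoot
  have hfin : ∀ n, Module.length k (AdjoinRoot f ⧸ I' n) ≠ ⊤ := by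
    intro n
    obtain ⟨e, he⟩ := hpow n
    exact length_map_pow_ne_top k (m + 1) (AdjoinRoot f) e (I' n)
      (by rw [AdjoinRoot.algebraMap_eq]; exact he.trans (hI n))
  refine liminf_bound m (fun n i => H (K (I n) i)) f.natDegree hdeg (D0 : ℝ) ?_ s ?_ q N hq c hc
    ?_ (fun n => ((Module.length k (AdjoinRoot f ⧸ I' n)).toNat : ℝ)) (D0 : ℝ) ?_
  · -- subadditivity
    intro n n' i i'
    refine le_trans (hHanti (K (I n) i * K (I n') i') _ ?_ ?_) (hHmul _ _ (hXK n i) (hXK n' i'))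
    · obtain ⟨e, he⟩ := hXK n i
      obtain ⟨e', he'⟩ := hXK n' i'
      refine ⟨e + e', ?_⟩
      rw [pow_add, map_mul]
      exact Ideal.mul_mem_mul he he'
    · exact (hKmul _ _ _ _).trans (hKmono _ _ _ (hmul n n'))
  · -- vanishing
    intro l
    have h1 : AdjoinRoot.of f (MvPowerSeries.X l.castSucc ^ s) ∈ I 1 := by
      apply hs
      apply Ideal.mem_map_of_mem
      exact Ideal.pow_mem_pow (Ideal.subset_span (Set.mem_range_self _)) s
    change H (K (I 1) (Pi.single l s)) = 0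
    rw [hKtop _ l s h1, hHtop]
  · -- lower bound
    intro e n i hn hi
    have h1 : ∀ v ∈ K (I n) i, AdjoinRoot.of F (sp k m g) * v ∈
        Ideal.span {AdjoinRoot.of F (PowerSeries.X ^ q e)} := by
      refine hKq g (I n) (q e) ?_ i hi
      intro u hu
      have h2 := hN e u (hanti hn hu)
      refine Ideal.map_mono ?_ h2
      rw [Ideal.span_le]
      rintro _ ⟨l, rfl⟩
      exact X_pow_mem_qI _ l
    have h3 := hHq (K (I n) i) (q e) (hXK n i) h1
    rw [hFdeg] at h3
    have h4 : ((f.natDegree : ℝ)) * (q e : ℝ) ≤ (H (K (I n) i) : ℝ) + (D0 : ℝ) := by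
      exact_mod_cast h3
    change _ ≤ ((H (K (I n) i) : ℕ) : ℝ)
    linarith
  · -- lengths
    intro n S
    have h1 := hKlen (I' n) S
    have hlt : ∑ i ∈ S, Module.length k (AdjoinRoot F ⧸ K (I' n) i) ≠ ⊤ :=
      ne_top_of_le_ne_top (hfin n) h1
    have hlt' : ∀ i ∈ S, Module.length k (AdjoinRoot F ⧸ K (I' n) i) ≠ ⊤ := by
      intro i hi h
      apply hlt
      rw [← Finset.add_sum_erase S _ hi, h, top_add]
    have h2 : ((∑ i ∈ S, (Module.length k (AdjoinRoot F ⧸ K (I' n) i)).toNat : ℕ) : ℕ∞) ≤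
        Module.length k (AdjoinRoot f ⧸ I' n) := by
      rw [Nat.cast_sum]
      refine le_trans (le_of_eq (Finset.sum_congr rfl fun i hi => ?_)) h1
      exact ENat.natCast_toNat (hlt' i hi)
    have h3 : (∑ i ∈ S, (Module.length k (AdjoinRoot F ⧸ K (I' n) i)).toNat : ℕ) ≤
        (Module.length k (AdjoinRoot f ⧸ I' n)).toNat := by
      rw [← ENat.natCast_toNat (hfin n)] at h2
      exact_mod_cast h2
    have h4 : ((∑ i ∈ S, (Module.length k (AdjoinRoot F ⧸ K (I' n) i)).toNat : ℕ) : ℝ) ≤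
        ((Module.length k (AdjoinRoot f ⧸ I' n)).toNat : ℝ) := by exact_mod_cast h3
    refine le_trans ?_ h4
    rw [Nat.cast_sum]
    refine Finset.sum_le_sum fun i hi => ?_
    refine max_le (by positivity) ?_
    have h5 := hHlen (K (I n) i) (K (I' n) i) (hXK n i) (hKg (I n) (I' n) g i (hI' n))
    rw [← ENat.natCast_toNat (hlt' i hi)] at h5
    have h6 : H (K (I n) i) ≤ (Module.length k (AdjoinRoot F ⧸ K (I' n) i)).toNat + D0 := by
      exact_mod_cast h5
    have h7 : (H (K (I n) i) : ℝ) ≤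
        ((Module.length k (AdjoinRoot F ⧸ K (I' n) i)).toNat : ℝ) + (D0 : ℝ) := by
      exact_mod_cast h6
    linarith

end HMTW

end
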