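import Pool.Agent.Work.MP_286f1f_ag.Bd.B02
import Pool.Agent.Work.MP_286f1f_ag.Defs
import Pool.Agent.Work.MP_286f1f_ag.Bd.B03

/-! Bundle of small proof modules (one section per former module). -/

section

/-!
# The completion as a finite algebra over a power series ring
-/

set_option autoImplicit false

open IsLocalRing

namespace HMTW

theorem isHausdorff_of_le {A S : Type*} [CommRing A] [CommRing S] [Algebra A S] (J : Ideal A)
    (I : Ideal S) [IsHausdorff I S] (h : J.map (algebraMap A S) ≤ I) : IsHausdorff J S := by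
  rw [← IsHausdorff.map_algebraMap_iff (S := S)]
  refine ⟨fun x hx => ?_⟩
  apply IsHausdorff.haus (I := I) inferInstance
  intro n
  have := hx n
  rw [SModEq.zero, smul_eq_mul, Ideal.mul_top] at this ⊢
  exact Ideal.pow_right_mono h n this

section length

variable (R : Type*) [CommRing R] [IsLocalRing R] [IsNoetherianRing R]

/-- the completion -/
abbrev Cpl : Type _ := AdicCompletion (maximalIdeal R) R

theorem evalker (n : ℕ) (s : Cpl R) (h : AdicCompletion.evalₐ (maximalIdeal R) n s = 0) :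
    s ∈ (maximalIdeal R ^ n).map (algebraMap R (Cpl R)) := by
  have h1 : s ∈ (AdicCompletion.eval (maximalIdeal R) R n).ker := by
    rw [LinearMap.mem_ker]
    have h2 := AdicCompletion.factor_evalₐ_eq_eval (I := maximalIdeal R) s
      (n := n) (by rw [smul_eq_mul, Ideal.mul_top])
    rw [← h2, h, map_zero]
  rw [← AdicCompletion.pow_smul_top_eq_ker_eval (maximalIdeal R).fg_of_isNoetherianRing,
    Ideal.smul_top_eq_map] at h1
  exact h1

theorem length_completion (I : Ideal R) (n : ℕ) (hI : maximalIdeal R ^ n ≤ I) :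
    Module.length R (R ⧸ I) =
      Module.length (Cpl R) (Cpl R ⧸ I.map (algebraMap R (Cpl R))) := by
  set φ := algebraMap R (Cpl R) with hφ
  have hinj : ∀ r : R, φ r ∈ I.map φ → r ∈ I := by
    intro r hr
    have h1 : AdicCompletion.evalₐ (maximalIdeal R) n (φ r) ∈
        (I.map φ).map (AdicCompletion.evalₐ (maximalIdeal R) n).toRingHom :=
      Ideal.mem_map_of_mem _ hr
    have h2 : (AdicCompletion.evalₐ (maximalIdeal R) n).toRingHom.comp φ =
        Ideal.Quotient.mk (maximalIdeal R ^ n) :=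
      (AdicCompletion.evalₐ (maximalIdeal R) n).comp_algebraMap
    rw [Ideal.map_map, h2] at h1
    have h3 : AdicCompletion.evalₐ (maximalIdeal R) n (φ r) =
        Ideal.Quotient.mk (maximalIdeal R ^ n) r :=
      (AdicCompletion.evalₐ (maximalIdeal R) n).commutes r
    rw [h3, Ideal.mem_quotient_iff_mem hI] at h1
    exact h1
  have hsurj : ∀ s : Cpl R, ∃ r : R, s - φ r ∈ I.map φ := by
    intro s
    obtain ⟨r, hr⟩ := Ideal.Quotient.mk_surjective (AdicCompletion.evalₐ (maximalIdeal R) n s)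
    refine ⟨r, Ideal.map_mono hI (evalker R n _ ?_)⟩
    have h3 : AdicCompletion.evalₐ (maximalIdeal R) n (φ r) =
        Ideal.Quotient.mk (maximalIdeal R ^ n) r :=
      (AdicCompletion.evalₐ (maximalIdeal R) n).commutes r
    rw [map_sub, h3, hr, sub_self]
  have hs : Function.Surjective (algebraMap R (Cpl R ⧸ I.map φ)) := by
    intro t
    obtain ⟨s, rfl⟩ := Ideal.Quotient.mk_surjective t
    obtain ⟨r, hr⟩ := hsurj s
    refine ⟨r, ?_⟩
    have := (Ideal.Quotient.mk_eq_mk_iff_sub_mem s (φ r)).2 hr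
    rw [this]
    rfl
  have e1 : Module.length (Cpl R) (Cpl R ⧸ I.map φ) =
      Module.length (Cpl R ⧸ I.map φ) (Cpl R ⧸ I.map φ) :=
    Module.length_eq_of_surjective Ideal.Quotient.mk_surjective
  have e2 : Module.length R (Cpl R ⧸ I.map φ) =
      Module.length (Cpl R ⧸ I.map φ) (Cpl R ⧸ I.map φ) :=
    Module.length_eq_of_surjective hs
  rw [e1, ← e2]
  have hk : I ≤ LinearMap.ker (Algebra.linearMap R (Cpl R ⧸ I.map φ)) := by
    intro r hr
    rw [LinearMap.mem_ker]
    change Ideal.Quotient.mk (I.map φ) (φ r) = 0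
    rw [Ideal.Quotient.eq_zero_iff_mem]
    exact Ideal.mem_map_of_mem _ hr
  refine LinearEquiv.length_eq (LinearEquiv.ofBijective
    (Submodule.liftQ I (Algebra.linearMap R (Cpl R ⧸ I.map φ)) hk) ⟨?_, ?_⟩)
  · rw [← LinearMap.ker_eq_bot]
    apply Submodule.ker_liftQ_eq_bot
    intro r hr
    rw [LinearMap.mem_ker] at hr
    change Ideal.Quotient.mk (I.map φ) (φ r) = 0 at hr
    rw [Ideal.Quotient.eq_zero_iff_mem] at hr
    exact hinj r hr
  · intro t
    obtain ⟨r, hr⟩ := hs t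
    exact ⟨Submodule.Quotient.mk r, hr⟩

end length

/-- a complete local ring of prime characteristic has a coefficient field -/
theorem exists_coeff_field (S : Type) [CommRing S] [IsLocalRing S] [IsAdicComplete (maximalIdeal S) S]
    (p : ℕ) [Fact p.Prime] [CharP S p] :
    ∃ (k : Type) (_ : Field k) (_ : CharP k p) (g : k →+* S),
      Function.Surjective ((IsLocalRing.residue S).comp g) := by
  let _ : Algebra (ZMod p) S := ZMod.algebra S p
  let _ : Field (S ⧸ maximalIdeal S) := Ideal.Quotient.field _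
  have : Algebra.FormallySmooth (ZMod p) (S ⧸ maximalIdeal S) := formallySmooth_field _ _
  obtain ⟨g, hg⟩ := Algebra.FormallySmooth.exists_mkₐ_comp_eq_of_isAdicComplete
    (R := ZMod p) (A := S ⧸ maximalIdeal S) (S := S) (I := maximalIdeal S)
    (AlgHom.id (ZMod p) (S ⧸ maximalIdeal S))
  refine ⟨S ⧸ maximalIdeal S, inferInstance, ?_, g.toRingHom, ?_⟩
  · exact charP_of_injective_algebraMap (algebraMap (ZMod p) (S ⧸ maximalIdeal S)).injective p
  · intro y
    refine ⟨y, ?_⟩
    exact DFunLike.congr_fun hg y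

/-- I2 -/
theorem exists_model (R : Type) [CommRing R] [IsLocalRing R] [IsNoetherianRing R] (p : ℕ)
    [Fact p.Prime] [CharP R p] (d : ℕ) (x : Fin d → R)
    (hx : ∀ i, x i ∈ IsLocalRing.maximalIdeal R)
    (hrad : (Ideal.span (Set.range x)).radical = IsLocalRing.maximalIdeal R) :
    ∃ (k : Type) (_ : Field k) (_ : CharP k p) (S : Type) (_ : CommRing S) (_ : IsLocalRing S)
      (_ : Algebra (MvPowerSeries (Fin d) k) S) (φ : R →+* S),
      Module.Finite (MvPowerSeries (Fin d) k) S ∧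
      (∀ i, algebraMap (MvPowerSeries (Fin d) k) S (MvPowerSeries.X i) = φ (x i)) ∧
      Function.Surjective ((IsLocalRing.residue S).comp
        ((algebraMap (MvPowerSeries (Fin d) k) S).comp MvPowerSeries.C)) ∧
      ∀ I : Ideal R, (∃ n, IsLocalRing.maximalIdeal R ^ n ≤ I) →
        Module.length R (R ⧸ I) = Module.length S (S ⧸ I.map φ) := by
  have : CharP (Cpl R) p := by
    rw [CharP.charP_iff_prime_eq_zero (Fact.out : p.Prime)]
    have : (p : R) = 0 := CharP.cast_eq_zero R p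
    rw [← map_natCast (algebraMap R (Cpl R)), this, map_zero]
  obtain ⟨k, hk1, hk2, g, hg⟩ := exists_coeff_field (Cpl R) p
  set φ := algebraMap R (Cpl R) with hφ
  have hmax : maximalIdeal (Cpl R) = (maximalIdeal R).map φ := AdicCompletion.maximalIdeal_eq_map
  have hx' : ∀ i, φ (x i) ∈ maximalIdeal (Cpl R) := by
    intro i
    rw [hmax]
    exact Ideal.mem_map_of_mem _ (hx i)
  obtain ⟨Φ, hΦC, hΦX⟩ := exists_eval (maximalIdeal (Cpl R)) g (fun i => φ (x i)) hx'
  let alg : Algebra (MvPowerSeries (Fin d) k) (Cpl R) := Φ.toAlgebra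
  have halg : algebraMap (MvPowerSeries (Fin d) k) (Cpl R) = Φ := rfl
  refine ⟨k, hk1, hk2, Cpl R, inferInstance, inferInstance, alg, φ, ?_, ?_, ?_, ?_⟩
  · set J : Ideal (MvPowerSeries (Fin d) k) := Ideal.span (Set.range MvPowerSeries.X) with hJ
    have hJm : J.map (algebraMap (MvPowerSeries (Fin d) k) (Cpl R)) =
        (Ideal.span (Set.range x)).map φ := by
      rw [hJ, Ideal.map_span, Ideal.map_span, ← Set.range_comp, ← Set.range_comp, halg]
      congr 2
      funext i
      exact hΦX i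
    have : IsHausdorff J (Cpl R) := by
      refine isHausdorff_of_le J (maximalIdeal (Cpl R)) ?_
      rw [hJm, Ideal.map_le_iff_le_comap, Ideal.span_le]
      rintro _ ⟨i, rfl⟩
      exact hx' i
    obtain ⟨n, hn⟩ := Ideal.exists_radical_pow_le_of_fg (Ideal.span (Set.range x))
      (IsNoetherian.noetherian _)
    rw [hrad] at hn
    have hA : ∀ s : Cpl R, ∃ a : MvPowerSeries (Fin d) k,
        s - algebraMap (MvPowerSeries (Fin d) k) (Cpl R) a ∈ maximalIdeal (Cpl R) := by
      intro s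
      obtain ⟨c, hc⟩ := hg (IsLocalRing.residue _ s)
      refine ⟨MvPowerSeries.C c, ?_⟩
      rw [halg, hΦC, ← IsLocalRing.residue_eq_zero_iff, map_sub, ← hc]
      simp
    obtain ⟨T, hT, hTs⟩ := exists_finite_span (A := MvPowerSeries (Fin d) k)
      (maximalIdeal (Cpl R)) hA
      (by rw [hmax]; exact ((maximalIdeal R).fg_of_isNoetherianRing).map φ) n
    refine finite_of_complete J T hT fun s => ?_
    obtain ⟨u, hu, hsu⟩ := hTs s
    refine ⟨u, hu, ?_⟩
    rw [hJm]
    rw [hmax, ← Ideal.map_pow] at hsu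
    exact Ideal.map_mono hn hsu
  · intro i
    exact hΦX i
  · intro y
    obtain ⟨c, hc⟩ := hg y
    refine ⟨c, ?_⟩
    rw [← hc]
    simp only [RingHom.comp_apply]
    rw [halg, hΦC]
  · rintro I ⟨n, hn⟩
    exact length_completion R I n hn

end HMTW

end

section

/-!
Passing from the domains `S / P` to `S` along a prime filtration.
-/

set_option autoImplicit false

open Filter Polynomial

namespace HMTW

section General

variable {S : Type*} [CommRing S]

lemma length_quot_anti {M : Type*} [AddCommGroup M] [Module S M] {K K' : Submodule S M}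
    (h : K ≤ K') : Module.length S (M ⧸ K') ≤ Module.length S (M ⧸ K) :=
  Module.length_le_of_surjective (Submodule.factor h) (Submodule.factor_surjective h)

lemma length_quot_exact {M₁ M₂ M₃ : Type*} [AddCommGroup M₁] [Module S M₁] [AddCommGroup M₂]
    [Module S M₂] [AddCommGroup M₃] [Module S M₃] (f : M₁ →ₗ[S] M₂) (g : M₂ →ₗ[S] M₃)
    (hg : Function.Surjective g) (hfg : Function.Exact f g) (K : Submodule S M₂) :
    Module.length S (M₂ ⧸ K) =
      Module.length S (M₁ ⧸ K.comap f) + Module.length S (M₃ ⧸ K.map g) := by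
  refine Module.length_eq_add_of_exact (Submodule.mapQ (K.comap f) K f le_rfl)
    (Submodule.mapQ K (K.map g) g (Submodule.le_comap_map g K)) ?_ ?_ ?_
  · rw [← LinearMap.ker_eq_bot, LinearMap.ker_eq_bot']
    intro m hm
    obtain ⟨x, rfl⟩ := Submodule.mkQ_surjective _ m
    rw [Submodule.mkQ_apply, Submodule.mapQ_apply, Submodule.Quotient.mk_eq_zero] at hm
    rw [Submodule.mkQ_apply, Submodule.Quotient.mk_eq_zero]
    exact hm
  · intro y
    obtain ⟨x, rfl⟩ := Submodule.mkQ_surjective _ y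
    obtain ⟨z, rfl⟩ := hg x
    exact ⟨Submodule.Quotient.mk z, by rw [Submodule.mapQ_apply, Submodule.mkQ_apply]⟩
  · intro y
    obtain ⟨x, rfl⟩ := Submodule.mkQ_surjective _ y
    rw [Submodule.mkQ_apply, Submodule.mapQ_apply, Submodule.Quotient.mk_eq_zero]
    constructor
    · rintro ⟨z, hz, hzx⟩
      have h1 : g (x - z) = 0 := by rw [map_sub, hzx, sub_self]
      obtain ⟨w, hw⟩ := (hfg _).mp h1
      refine ⟨Submodule.Quotient.mk w, ?_⟩
      rw [Submodule.mapQ_apply, hw, Submodule.Quotient.eq]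
      simpa using K.neg_mem hz
    · rintro ⟨w, hw⟩
      obtain ⟨w, rfl⟩ := Submodule.mkQ_surjective _ w
      rw [Submodule.mkQ_apply, Submodule.mapQ_apply, Submodule.Quotient.eq] at hw
      refine ⟨x - f w, ?_, ?_⟩
      · have := K.neg_mem hw
        simpa using this
      · rw [map_sub, hfg.apply_apply_eq_zero, sub_zero]

lemma map_pow_top {M₂ M₃ : Type*} [AddCommGroup M₂] [Module S M₂] [AddCommGroup M₃]
    [Module S M₃] (g : M₂ →ₗ[S] M₃) (hg : Function.Surjective g) (J : Ideal S) :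
    (J • ⊤ : Submodule S M₂).map g = J • ⊤ := by
  rw [Submodule.map_smul'', Submodule.map_top, LinearMap.range_eq_top.mpr hg]

lemma le_comap_pow_top {M₁ M₂ : Type*} [AddCommGroup M₁] [Module S M₁] [AddCommGroup M₂]
    [Module S M₂] (f : M₁ →ₗ[S] M₂) (J : Ideal S) :
    (J • ⊤ : Submodule S M₁) ≤ (J • ⊤ : Submodule S M₂).comap f := by
  rw [← Submodule.map_le_iff_le_comap, Submodule.map_smul'']
  exact Submodule.smul_mono le_rfl le_top

lemma artin_rees_comap [IsNoetherianRing S] {M₁ M₂ : Type*} [AddCommGroup M₁] [Module S M₁]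
    [AddCommGroup M₂] [Module S M₂] [Module.Finite S M₂] (f : M₁ →ₗ[S] M₂)
    (hf : Function.Injective f) (I : Ideal S) :
    ∃ k : ℕ, ∀ n ≥ k, (I ^ n • ⊤ : Submodule S M₂).comap f ≤ I ^ (n - k) • ⊤ := by
  obtain ⟨k, hk⟩ := Ideal.exists_pow_inf_eq_pow_smul I (LinearMap.range f)
  refine ⟨k, fun n hn => ?_⟩
  intro x hx
  have h1 : f x ∈ (I ^ n • ⊤ ⊓ LinearMap.range f : Submodule S M₂) :=
    ⟨hx, LinearMap.mem_range_self f x⟩
  rw [hk n hn] at h1
  have h2 : f x ∈ (I ^ (n - k) • ⊤ : Submodule S M₁).map f := by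
    rw [Submodule.map_smul'', Submodule.map_top]
    exact Submodule.smul_mono le_rfl inf_le_right h1
  obtain ⟨y, hy, hyx⟩ := h2
  rw [← hf hyx]
  exact hy

lemma shift_bound (c ε : ℝ) (hε : 0 < ε) (k d : ℕ) :
    ∀ᶠ n : ℕ in atTop, (c - ε) * (n : ℝ) ^ d ≤ c * ((n - k : ℕ) : ℝ) ^ d := by
  have h1 : Tendsto (fun n : ℕ => c * (1 - (k : ℝ) / n) ^ d) atTop (nhds (c * (1 - 0) ^ d)) :=
    ((tendsto_const_nhds.sub (tendsto_const_div_atTop_nhds_zero_nat (k : ℝ))).pow d).const_mul c
  rw [sub_zero, one_pow, mul_one] at h1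
  have h2 : ∀ᶠ n : ℕ in atTop, c - ε < c * (1 - (k : ℝ) / n) ^ d :=
    h1.eventually (lt_mem_nhds (by linarith))
  filter_upwards [h2, eventually_ge_atTop (k + 1)] with n hn hk
  have hn0 : (0 : ℝ) < n := by
    have : 0 < n := by omega
    exact_mod_cast this
  have h3 : ((n - k : ℕ) : ℝ) = (1 - (k : ℝ) / n) * n := by
    rw [Nat.cast_sub (by omega)]
    field_simp
  rw [h3, mul_pow, ← mul_assoc]
  exact mul_le_mul_of_nonneg_right hn.le (by positivity)

variable (J I : Ideal S) (d : ℕ) (kap : ℝ)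

/-- All relevant lengths are finite. -/
def FinLen (M : Type*) [AddCommGroup M] [Module S M] : Prop :=
  ∀ n : ℕ, Module.length S (M ⧸ (J ^ n • ⊤ : Submodule S M)) ≠ ⊤

lemma FinLen.of_surjective {M N : Type*} [AddCommGroup M] [Module S M] [AddCommGroup N]
    [Module S N] (f : M →ₗ[S] N) (hf : Function.Surjective f) (h : FinLen J M) :
    FinLen J N := by
  intro n
  refine ne_top_of_le_ne_top (h n) (Module.length_le_of_surjective
    (Submodule.mapQ _ _ f (le_comap_pow_top f (J ^ n))) ?_)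
  intro y
  obtain ⟨x, rfl⟩ := Submodule.mkQ_surjective _ y
  obtain ⟨z, rfl⟩ := hf x
  exact ⟨Submodule.Quotient.mk z, by rw [Submodule.mapQ_apply, Submodule.mkQ_apply]⟩

lemma FinLen.of_exact {M₁ M₂ M₃ : Type*} [AddCommGroup M₁] [Module S M₁] [AddCommGroup M₂]
    [Module S M₂] [AddCommGroup M₃] [Module S M₃] (f : M₁ →ₗ[S] M₂) (g : M₂ →ₗ[S] M₃)
    (hg : Function.Surjective g) (hfg : Function.Exact f g) (h1 : FinLen J M₁)
    (h3 : FinLen J M₃) : FinLen J M₂ := by
  intro n
  rw [length_quot_exact f g hg hfg, map_pow_top g hg]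
  refine WithTop.add_ne_top.mpr ⟨?_, h3 n⟩
  exact ne_top_of_le_ne_top (h1 n) (length_quot_anti (le_comap_pow_top f (J ^ n)))

lemma toNat_le_toNat' {a b : ℕ∞} (h : a ≤ b) (hb : b ≠ ⊤) : a.toNat ≤ b.toNat :=
  ENat.toNat_le_toNat h hb

lemma Up.of_exact {M₁ M₂ M₃ : Type*} [AddCommGroup M₁] [Module S M₁] [AddCommGroup M₂]
    [Module S M₂] [AddCommGroup M₃] [Module S M₃] (f : M₁ →ₗ[S] M₂) (g : M₂ →ₗ[S] M₃)
    (hg : Function.Surjective g) (hfg : Function.Exact f g) (h1 : FinLen J M₁)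
    (h3 : FinLen J M₃) {ρ₁ ρ₃ : ℕ} (u1 : Up S J d M₁ ρ₁) (u3 : Up S J d M₃ ρ₃) :
    Up S J d M₂ (ρ₁ + ρ₃) := by
  intro ε hε
  filter_upwards [u1 (ε / 2) (by linarith), u3 (ε / 2) (by linarith)] with n e1 e3
  have e2 : (Module.length S (M₂ ⧸ (J ^ n • ⊤ : Submodule S M₂))).toNat ≤
      (Module.length S (M₁ ⧸ (J ^ n • ⊤ : Submodule S M₁))).toNat +
      (Module.length S (M₃ ⧸ (J ^ n • ⊤ : Submodule S M₃))).toNat := by
    rw [length_quot_exact f g hg hfg, map_pow_top g hg, ← ENat.toNat_add (h1 n) (h3 n)]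
    refine toNat_le_toNat' ?_ (WithTop.add_ne_top.mpr ⟨h1 n, h3 n⟩)
    gcongr
    exact length_quot_anti (le_comap_pow_top f (J ^ n))
  have e4 : ((Module.length S (M₂ ⧸ (J ^ n • ⊤ : Submodule S M₂))).toNat : ℝ) ≤
      (Module.length S (M₁ ⧸ (J ^ n • ⊤ : Submodule S M₁))).toNat +
      (Module.length S (M₃ ⧸ (J ^ n • ⊤ : Submodule S M₃))).toNat := by
    exact_mod_cast e2
  refine e4.trans ((add_le_add e1 e3).trans (le_of_eq ?_))
  push_cast
  ring

lemma Lo.of_exact [IsNoetherianRing S] {M₁ M₂ M₃ : Type*} [AddCommGroup M₁] [Module S M₁]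
    [AddCommGroup M₂] [Module S M₂] [Module.Finite S M₂] [AddCommGroup M₃] [Module S M₃]
    (f : M₁ →ₗ[S] M₂) (g : M₂ →ₗ[S] M₃) (hf : Function.Injective f)
    (hg : Function.Surjective g) (hfg : Function.Exact f g) (h1 : FinLen I M₁)
    (h3 : FinLen I M₃) {ρ₁ ρ₃ : ℕ} (u1 : Lo S I d kap M₁ ρ₁) (u3 : Lo S I d kap M₃ ρ₃) :
    Lo S I d kap M₂ (ρ₁ + ρ₃) := by
  intro ε hε
  obtain ⟨k, hk⟩ := artin_rees_comap f hf I
  have u1' := (tendsto_sub_atTop_nat k).eventually (u1 (ε / 3) (by linarith))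
  filter_upwards [u1', u3 (ε / 3) (by linarith), eventually_ge_atTop k,
    shift_bound ((ρ₁ : ℝ) * kap - ε / 3) (ε / 3) (by linarith) k d] with n e1 e3 hn es
  have e2 : (Module.length S (M₁ ⧸ (I ^ (n - k) • ⊤ : Submodule S M₁))).toNat +
      (Module.length S (M₃ ⧸ (I ^ n • ⊤ : Submodule S M₃))).toNat ≤
      (Module.length S (M₂ ⧸ (I ^ n • ⊤ : Submodule S M₂))).toNat := by
    rw [length_quot_exact f g hg hfg, map_pow_top g hg, ← ENat.toNat_add (h1 _) (h3 n)]
    have hfin : Module.length S (M₁ ⧸ (I ^ n • ⊤ : Submodule S M₂).comap f) ≠ ⊤ :=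
      ne_top_of_le_ne_top (h1 n) (length_quot_anti (le_comap_pow_top f (I ^ n)))
    refine toNat_le_toNat' ?_ (WithTop.add_ne_top.mpr ⟨hfin, h3 n⟩)
    gcongr
    exact length_quot_anti (hk n hn)
  have e4 : ((Module.length S (M₁ ⧸ (I ^ (n - k) • ⊤ : Submodule S M₁))).toNat : ℝ) +
      (Module.length S (M₃ ⧸ (I ^ n • ⊤ : Submodule S M₃))).toNat ≤
      (Module.length S (M₂ ⧸ (I ^ n • ⊤ : Submodule S M₂))).toNat := by
    exact_mod_cast e2
  refine le_trans ?_ e4
  refine le_trans ?_ (add_le_add (es.trans e1) e3)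
  apply le_of_eq
  push_cast
  ring

end General

theorem prime_filtration_bound (S : Type) [CommRing S] [IsNoetherianRing S] (d : ℕ)
    (J I : Ideal S) (hJ : ∀ n, Module.length S (S ⧸ J ^ n) ≠ ⊤)
    (hI : ∀ n, Module.length S (S ⧸ I ^ n) ≠ ⊤) (kap : ℝ) (Q : Prop)
    (hprime : ∀ P : Ideal S, P.IsPrime →
      ∃ ρ : ℕ, (ρ ≠ 0 → Q) ∧ Up S J d (S ⧸ P) ρ ∧ Lo S I d kap (S ⧸ P) ρ) :
    ∃ ρ : ℕ, (ρ ≠ 0 → Q) ∧ Up S J d S ρ ∧ Lo S I d kap S ρ := by
  have hJS : FinLen J S := by
    intro n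
    have : (J ^ n • ⊤ : Submodule S S) = J ^ n := by simp
    rw [this]
    exact hJ n
  have hIS : FinLen I S := by
    intro n
    have : (I ^ n • ⊤ : Submodule S S) = I ^ n := by simp
    rw [this]
    exact hI n
  have key : ∀ (M : Type) [AddCommGroup M] [Module S M] (_ : Module.Finite S M),
      FinLen J M ∧ FinLen I M ∧
        ∃ ρ : ℕ, (ρ ≠ 0 → Q) ∧ Up S J d M ρ ∧ Lo S I d kap M ρ := by
    intro M _ _ hM
    induction hM using IsNoetherianRing.induction_on_isQuotientEquivQuotientPrime S with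
    | subsingleton N =>
      have h0 : ∀ K : Submodule S N, Module.length S (N ⧸ K) = 0 := fun K =>
        Module.length_eq_zero
      refine ⟨fun n => by rw [h0]; simp, fun n => by rw [h0]; simp, 0, by simp, ?_, ?_⟩
      · intro ε hε
        refine Eventually.of_forall fun n => ?_
        rw [h0]
        simp
        positivity
      · intro ε hε
        refine Eventually.of_forall fun n => ?_
        rw [h0]
        simp
        positivity
    | quotient N P e =>
      have hs : Function.Surjective (e.symm.toLinearMap.comp (Submodule.mkQ P.asIdeal)) :=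
        e.symm.surjective.comp (Submodule.mkQ_surjective _)
      refine ⟨FinLen.of_surjective J _ hs hJS, FinLen.of_surjective I _ hs hIS, ?_⟩
      obtain ⟨ρ, hρ, h1, h2⟩ := hprime P.asIdeal P.isPrime
      have hlen : ∀ K : Ideal S, Module.length S (N ⧸ (K • ⊤ : Submodule S N)) =
          Module.length S ((S ⧸ P.asIdeal) ⧸ (K • ⊤ : Submodule S (S ⧸ P.asIdeal))) := by
        intro K
        refine LinearEquiv.length_eq (Submodule.Quotient.equiv _ _ e ?_)
        exact map_pow_top e.toLinearMap e.surjective K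
      refine ⟨ρ, hρ, ?_, ?_⟩
      · intro ε hε
        filter_upwards [h1 ε hε] with n hn
        rw [hlen]
        exact hn
      · intro ε hε
        filter_upwards [h2 ε hε] with n hn
        rw [hlen]
        exact hn
    | exact N₁ N₂ N₃ f g hf hg hfg ih₁ ih₃ =>
      obtain ⟨a1, b1, ρ₁, hρ₁, u1, l1⟩ := ih₁
      obtain ⟨a3, b3, ρ₃, hρ₃, u3, l3⟩ := ih₃
      refine ⟨FinLen.of_exact J f g hg hfg a1 a3, FinLen.of_exact I f g hg hfg b1 b3,
        ρ₁ + ρ₃, ?_, Up.of_exact J d f g hg hfg a1 a3 u1 u3,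
        Lo.of_exact I d kap f g hf hg hfg b1 b3 l1 l3⟩
      intro h
      by_cases h1 : ρ₁ = 0
      · exact hρ₃ (by omega)
      · exact hρ₁ h1
  exact (key S inferInstance).2.2

end HMTW

end

section

set_option autoImplicit false

open Filter Polynomial

namespace HMTW

/-- G3 : upper bound, domain case -/
theorem domain_upper (k : Type) [Field k] (m : ℕ) (D : Type) [CommRing D] [IsDomain D]
    [Algebra k D]
    [Algebra (MvPowerSeries (Fin (m + 1)) k) D] [IsScalarTower k (MvPowerSeries (Fin (m + 1)) k) D]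
    [Module.Finite (MvPowerSeries (Fin (m + 1)) k) D]
    (hinj : Function.Injective (algebraMap (MvPowerSeries (Fin (m + 1)) k) D))
    (p : ℕ) (X : DomData (MvPowerSeries (Fin (m + 1)) k) D p)
    (ε : ℝ) (hε : 0 < ε) :
    ∀ᶠ n : ℕ in atTop,
      ((Module.length k (D ⧸ ((Ideal.span (Set.range MvPowerSeries.X)) ^ n).map
        (algebraMap (MvPowerSeries (Fin (m + 1)) k) D))).toNat : ℝ) ≤
        (((X.ρ * X.f.natDegree : ℕ) : ℝ) / ((m + 1).factorial : ℝ) + ε) * (n : ℝ) ^ (m + 1) := by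
  refine upper_general k m D X.g X.g_ne
    (fun i => X.θ ^ ((finProdFinEquiv.symm i).2 : ℕ) * X.e (finProdFinEquiv.symm i).1) ?_ ε hε
  intro x
  obtain ⟨h, hh⟩ := X.denomD x
  rw [hh]
  refine Submodule.sum_mem _ fun j _ => ?_
  have h1 : aeval X.θ (h j) = aeval X.θ (h j %ₘ X.f) := by
    conv_lhs => rw [← Polynomial.modByMonic_add_div (h j) X.f]
    rw [map_add, map_mul, X.root, zero_mul, add_zero]
  have h2 : (h j %ₘ X.f).natDegree < X.f.natDegree :=
    Polynomial.natDegree_modByMonic_lt _ X.monic (by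
      intro h1
      have := X.deg
      rw [h1, natDegree_one] at this
      exact lt_irrefl _ this)
  rw [h1, Polynomial.aeval_eq_sum_range' h2, Finset.sum_mul]
  refine Submodule.sum_mem _ fun b hb => ?_
  rw [smul_mul_assoc]
  refine Submodule.smul_mem _ _ (Submodule.subset_span ?_)
  exact ⟨finProdFinEquiv (j, ⟨b, Finset.mem_range.1 hb⟩), by simp⟩

end HMTW

end

section

set_option autoImplicit false

open Filter Polynomial

namespace HMTW

theorem pow_le_comap_pow {R S : Type*} [CommRing R] [CommRing S] {ι : Type*} (x : ι → R)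
    (y : ι → S) (τ : R →+* S) (hτ : ∀ i, τ (x i) ∈ Ideal.span (Set.range y)) (s : ℕ) :
    Ideal.span (Set.range x) ^ s ≤ (Ideal.span (Set.range y) ^ s).comap τ := by
  refine le_trans (Ideal.pow_right_mono ?_ s) (Ideal.le_comap_pow τ s)
  rw [Ideal.span_le]
  rintro _ ⟨i, rfl⟩
  exact hτ i

theorem frob_le_comap_frob {R S : Type*} [CommRing R] [CommRing S] {n : ℕ} (x : Fin n → R)
    (y : Fin n → S) (τ : R →+* S) (hτ : ∀ i, τ (x i) ∈ Ideal.span (Set.range y))
    (p : ℕ) [Fact p.Prime] [CharP S p] (j : ℕ) :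
    Ideal.span (Set.range fun i => x i ^ p ^ j) ≤
      (Ideal.span (Set.range fun i => y i ^ p ^ j)).comap τ := by
  rw [Ideal.span_le]
  rintro _ ⟨i, rfl⟩
  rw [SetLike.mem_coe, Ideal.mem_comap, map_pow]
  obtain ⟨c, hc⟩ := (Ideal.mem_span_range_iff_exists_fun).1 (hτ i)
  rw [← hc, sum_pow_char_pow]
  refine Ideal.sum_mem _ fun l _ => ?_
  rw [mul_pow]
  exact Ideal.mul_mem_left _ _ (Ideal.subset_span ⟨l, rfl⟩)

/-- D2 -/
theorem core' (k : Type) [Field k] (p : ℕ) [Fact p.Prime] [CharP k p] (m : ℕ)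
    (f : (MvPowerSeries (Fin (m + 1)) k)[X])
    (hf : f.Monic) (hdeg : 0 < f.natDegree) (a b : (MvPowerSeries (Fin (m + 1)) k)[X])
    (δ g : MvPowerSeries (Fin (m + 1)) k) (hab : a * f + b * derivative f = C δ)
    (hδ : δ ≠ 0) (hg : g ≠ 0)
    (I : ℕ → Ideal (AdjoinRoot f)) (hmul : ∀ n n', I n * I n' ≤ I (n + n')) (hanti : Antitone I)
    (s : ℕ) (hs : ((Ideal.span (Set.range MvPowerSeries.X)) ^ s).map (AdjoinRoot.of f) ≤ I 1)
    (q N : ℕ → ℕ) (hqp : ∀ e, ∃ j, q e = p ^ j) (hq : Tendsto q atTop atTop) (c : ℝ)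
    (hc : Tendsto (fun e => (N e : ℝ) / (q e : ℝ)) atTop (nhds c))
    (hN : ∀ e, ∀ u ∈ I (N e), AdjoinRoot.of f g * u ∈
      (Ideal.span (Set.range fun i => MvPowerSeries.X i ^ q e)).map (AdjoinRoot.of f))
    (I' : ℕ → Ideal (AdjoinRoot f)) (hI : ∀ n, I n ≤ I' n)
    (hI' : ∀ n, ∀ u ∈ I' n, AdjoinRoot.of f g * u ∈ I n) :
    0 < c ∧ ∀ ε : ℝ, 0 < ε → ∀ᶠ n : ℕ in atTop,
      ((f.natDegree : ℝ) * kapp (m + 1) c - ε) * (n : ℝ) ^ (m + 1) ≤
        ((Module.length k (AdjoinRoot f ⧸ I' n)).toNat : ℝ) := by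
  classical
  have : CharP (MvPowerSeries (Fin (m + 1)) k) p :=
    charP_of_injective_ringHom (f := (MvPowerSeries.C : k →+* MvPowerSeries (Fin (m + 1)) k))
      (RingHom.injective _) p
  obtain ⟨σ, hσ, hσX, hσX'⟩ := exists_sigma k m (δ * g) (mul_ne_zero hδ hg)
  set F : (MvPowerSeries (Fin (m + 1)) k)[X] :=
    f.map (σ : MvPowerSeries (Fin (m + 1)) k →+* MvPowerSeries (Fin (m + 1)) k) with hF
  have hFm : F.Monic := hf.map _
  have hFdeg : F.natDegree = f.natDegree := hf.natDegree_map _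
  let Φ : AdjoinRoot f ≃ₐ[k] AdjoinRoot F := AdjoinRoot.mapAlgEquiv σ f F (Associated.refl _)
  have hΦ : ∀ x, Φ (AdjoinRoot.of f x) = AdjoinRoot.of F (σ x) := by
    intro x
    exact AdjoinRoot.map_of _ f F (dvd_refl _) x
  have hΦ' : ∀ x, Φ.symm (AdjoinRoot.of F x) = AdjoinRoot.of f (σ.symm x) := by
    intro x
    rw [AlgEquiv.symm_apply_eq, hΦ, AlgEquiv.apply_symm_apply]
  let J : ℕ → Ideal (AdjoinRoot F) := fun n => (I n).comap (Φ.symm : AdjoinRoot F →+* AdjoinRoot f)
  let J' : ℕ → Ideal (AdjoinRoot F) :=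
    fun n => (I' n).comap (Φ.symm : AdjoinRoot F →+* AdjoinRoot f)
  have hlen : ∀ n, Module.length k (AdjoinRoot F ⧸ J' n) = Module.length k (AdjoinRoot f ⧸ I' n) := by
    intro n
    symm
    refine (Ideal.quotientEquivAlg (I' n) (J' n) Φ ?_).toLinearEquiv.length_eq
    exact (Ideal.map_comap_of_equiv (I := I' n) (Φ : AdjoinRoot f ≃+* AdjoinRoot F)).symm
  have habF : a.map (σ : MvPowerSeries (Fin (m + 1)) k →+* MvPowerSeries (Fin (m + 1)) k) * F +
      b.map (σ : MvPowerSeries (Fin (m + 1)) k →+* MvPowerSeries (Fin (m + 1)) k) * derivative F =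
      C (σ δ) := by
    have := congrArg (Polynomial.map
      (σ : MvPowerSeries (Fin (m + 1)) k →+* MvPowerSeries (Fin (m + 1)) k)) hab
    rwa [Polynomial.map_add, Polynomial.map_mul, Polynomial.map_mul, Polynomial.map_C,
      ← Polynomial.derivative_map] at this
  have key := core k m F hFm (hFdeg ▸ hdeg) _ _ (σ δ) (σ g) habF (by rw [← map_mul]; exact hσ)
    J ?_ ?_ s ?_ q N hq c hc ?_ J' ?_ ?_
  · rw [hFdeg] at key
    simp_rw [hlen] at key
    exact key
  · intro n n'
    exact (Ideal.le_comap_mul _).trans (Ideal.comap_mono (hmul n n'))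
  · intro n n' h
    exact Ideal.comap_mono (hanti h)
  · rw [Ideal.map_le_iff_le_comap]
    intro x hx
    change Φ.symm (AdjoinRoot.of F x) ∈ I 1
    rw [hΦ']
    apply hs
    apply Ideal.mem_map_of_mem
    exact pow_le_comap_pow (MvPowerSeries.X : Fin (m + 1) → MvPowerSeries (Fin (m + 1)) k)
      (MvPowerSeries.X : Fin (m + 1) → MvPowerSeries (Fin (m + 1)) k)
      (σ.symm : MvPowerSeries (Fin (m + 1)) k →+* MvPowerSeries (Fin (m + 1)) k) hσX' s hx
  · intro e u hu
    obtain ⟨j, hj⟩ := hqp e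
    have h1 := hN e (Φ.symm u) hu
    have h2 : (Ideal.span (Set.range fun i => MvPowerSeries.X i ^ q e)).map (AdjoinRoot.of f) ≤
        ((Ideal.span (Set.range fun i => MvPowerSeries.X i ^ q e)).map (AdjoinRoot.of F)).comap
          (Φ : AdjoinRoot f →+* AdjoinRoot F) := by
      rw [Ideal.map_le_iff_le_comap]
      intro x hx
      change Φ (AdjoinRoot.of f x) ∈
        (Ideal.span (Set.range fun i => MvPowerSeries.X i ^ q e)).map (AdjoinRoot.of F)
      rw [hΦ]
      apply Ideal.mem_map_of_mem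
      rw [hj] at hx ⊢
      exact frob_le_comap_frob (MvPowerSeries.X : Fin (m + 1) → MvPowerSeries (Fin (m + 1)) k)
        (MvPowerSeries.X : Fin (m + 1) → MvPowerSeries (Fin (m + 1)) k)
        (σ : MvPowerSeries (Fin (m + 1)) k →+* MvPowerSeries (Fin (m + 1)) k) hσX p j hx
    have h3 : Φ (AdjoinRoot.of f g * Φ.symm u) ∈
        (Ideal.span (Set.range fun i => MvPowerSeries.X i ^ q e)).map (AdjoinRoot.of F) := h2 h1
    rwa [map_mul, hΦ, AlgEquiv.apply_symm_apply] at h3
  · intro n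
    exact Ideal.comap_mono (hI n)
  · intro n u hu
    change Φ.symm (AdjoinRoot.of F (σ g) * u) ∈ I n
    rw [map_mul, hΦ', AlgEquiv.symm_apply_apply]
    exact hI' n _ hu

end HMTW

end
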