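import Pool.Agent.Work.MP_286f1f_ag.Bd.B04
import Pool.Agent.Work.MP_286f1f_ag.Bd.B02
import Pool.Agent.Work.MP_286f1f_ag.Bd.B01

/-! Bundle of small proof modules (one section per former module). -/

section

set_option autoImplicit false

open Filter Polynomial

namespace HMTW

/-- Rescaling the index of an asymptotic lower bound. -/
theorem scale_liminf (d Q C0 ρ r : ℕ) (hQ : 0 < Q) (κ κ' : ℝ) (hκ : κ' = (Q : ℝ) ^ d * κ)
    (L l : ℕ → ℝ) (hL : ∀ n n0 : ℕ, Q * n0 + C0 ≤ n → (ρ : ℝ) * l n0 ≤ L n)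
    (hl : ∀ ε : ℝ, 0 < ε → ∀ᶠ n : ℕ in atTop, ((r : ℝ) * κ' - ε) * (n : ℝ) ^ d ≤ l n) :
    ∀ ε : ℝ, 0 < ε → ∀ᶠ n : ℕ in atTop,
      (((ρ * r : ℕ) : ℝ) * κ - ε) * (n : ℝ) ^ d ≤ L n := by
  intro ε hε
  have hQ' : (0 : ℝ) < Q := by exact_mod_cast hQ
  have hQ1 : (1 : ℝ) ≤ (Q : ℝ) ^ d := one_le_pow₀ (by exact_mod_cast hQ)
  set ε₁ : ℝ := ε / ((ρ : ℝ) + 1) with hε₁
  have hρ : (0 : ℝ) ≤ ρ := Nat.cast_nonneg ρ
  have hε₁pos : 0 < ε₁ := by positivity
  let n0 : ℕ → ℕ := fun n => (n - C0) / Q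
  have hn0 : Tendsto n0 atTop atTop := by
    refine tendsto_atTop.2 fun b => ?_
    filter_upwards [eventually_ge_atTop (b * Q + C0)] with n hn
    rw [Nat.le_div_iff_mul_le hQ]
    omega
  have hlim : Tendsto (fun n : ℕ => (n0 n : ℝ) / (n : ℝ)) atTop (nhds (1 / (Q : ℝ))) := by
    have hlow : Tendsto (fun n : ℕ => (1 / (Q : ℝ)) - (((C0 : ℝ) + Q) / Q) / (n : ℝ)) atTop
        (nhds (1 / (Q : ℝ) - 0)) :=
      tendsto_const_nhds.sub (tendsto_const_div_atTop_nhds_zero_nat _)
    rw [sub_zero] at hlow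
    refine tendsto_of_tendsto_of_tendsto_of_le_of_le' hlow tendsto_const_nhds ?_ ?_
    · filter_upwards [eventually_ge_atTop (C0 + 1)] with n hn
      have hn' : (0 : ℝ) < n := by exact_mod_cast (by omega : 0 < n)
      have h1 : n - C0 < Q * (n0 n + 1) := by
        have := Nat.lt_mul_div_succ (n - C0) hQ
        exact this
      have h2 : n ≤ Q * n0 n + (C0 + Q) := by
        have : Q * (n0 n + 1) = Q * n0 n + Q := by ring
        omega
      have h3 : (n : ℝ) ≤ (Q : ℝ) * n0 n + (C0 + Q) := by exact_mod_cast h2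
      rw [div_div, div_sub_div _ _ hQ'.ne' (by positivity), div_le_div_iff₀ (by positivity) hn']
      have h4 : (n : ℝ) - (C0 + Q) ≤ (Q : ℝ) * n0 n := by linarith
      have h5 : (0 : ℝ) ≤ (Q : ℝ) * n := by positivity
      nlinarith [mul_le_mul_of_nonneg_left h4 h5]
    · filter_upwards [eventually_ge_atTop (C0 + 1)] with n hn
      have hn' : (0 : ℝ) < n := by exact_mod_cast (by omega : 0 < n)
      rw [div_le_div_iff₀ hn' hQ', one_mul]
      have h1 : n0 n * Q ≤ n - C0 := Nat.div_mul_le_self _ _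
      have h2 : n0 n * Q ≤ n := h1.trans (Nat.sub_le _ _)
      exact_mod_cast h2
  have hlim2 : Tendsto (fun n : ℕ => (ρ : ℝ) * (((r : ℝ) * κ' - ε₁) *
      ((n0 n : ℝ) / (n : ℝ)) ^ d)) atTop
      (nhds ((ρ : ℝ) * (((r : ℝ) * κ' - ε₁) * (1 / (Q : ℝ)) ^ d))) :=
    ((hlim.pow d).const_mul _).const_mul _
  have hval : ((ρ * r : ℕ) : ℝ) * κ - ε <
      (ρ : ℝ) * (((r : ℝ) * κ' - ε₁) * (1 / (Q : ℝ)) ^ d) := by
    have hQd : (0 : ℝ) < (Q : ℝ) ^ d := by positivity
    have e1 : (ρ : ℝ) * (((r : ℝ) * κ' - ε₁) * (1 / (Q : ℝ)) ^ d) =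
        ((ρ * r : ℕ) : ℝ) * κ - (ρ : ℝ) * ε₁ / (Q : ℝ) ^ d := by
      rw [hκ, one_div, inv_pow]
      push_cast
      field_simp
    rw [e1]
    have e2 : (ρ : ℝ) * ε₁ / (Q : ℝ) ^ d ≤ (ρ : ℝ) * ε₁ := div_le_self (by positivity) hQ1
    have e3 : (ρ : ℝ) * ε₁ < ε := by
      rw [hε₁, mul_div_assoc', div_lt_iff₀ (by positivity)]
      nlinarith
    linarith
  filter_upwards [hlim2.eventually (lt_mem_nhds hval), hn0.eventually (hl ε₁ hε₁pos),
    eventually_ge_atTop (C0 + 1)] with n h1 h2 h3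
  have hn' : (0 : ℝ) < n := by exact_mod_cast (by omega : 0 < n)
  have h4 : Q * n0 n + C0 ≤ n := by
    have : n0 n * Q ≤ n - C0 := Nat.div_mul_le_self _ _
    have h5 : Q * n0 n = n0 n * Q := by ring
    omega
  calc (((ρ * r : ℕ) : ℝ) * κ - ε) * (n : ℝ) ^ d
      ≤ ((ρ : ℝ) * (((r : ℝ) * κ' - ε₁) * ((n0 n : ℝ) / (n : ℝ)) ^ d)) * (n : ℝ) ^ d :=
        mul_le_mul_of_nonneg_right h1.le (by positivity)
    _ = (ρ : ℝ) * (((r : ℝ) * κ' - ε₁) * (n0 n : ℝ) ^ d) := by
        rw [div_pow]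
        field_simp
    _ ≤ (ρ : ℝ) * l (n0 n) := mul_le_mul_of_nonneg_left h2 hρ
    _ ≤ L n := hL n (n0 n) h4

/-- G4 : lower bound, domain case -/
theorem domain_lower (k : Type) [Field k] (m : ℕ) (D : Type) [CommRing D] [IsDomain D]
    [Algebra k D]
    [Algebra (MvPowerSeries (Fin (m + 1)) k) D] [IsScalarTower k (MvPowerSeries (Fin (m + 1)) k) D]
    [Module.Finite (MvPowerSeries (Fin (m + 1)) k) D]
    (hinj : Function.Injective (algebraMap (MvPowerSeries (Fin (m + 1)) k) D))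
    (p : ℕ) [Fact p.Prime] [CharP k p] (X : DomData (MvPowerSeries (Fin (m + 1)) k) D p)
    (I : Ideal D) (s : ℕ) (hs : ((Ideal.span (Set.range MvPowerSeries.X)) ^ s).map
        (algebraMap (MvPowerSeries (Fin (m + 1)) k) D) ≤ I)
    (N : ℕ → ℕ) (c : ℝ) (hc : Tendsto (fun e => (N e : ℝ) / (p : ℝ) ^ e) atTop (nhds c))
    (hN : ∀ e, I ^ N e ≤ Ideal.span (Set.range fun i =>
      algebraMap (MvPowerSeries (Fin (m + 1)) k) D (MvPowerSeries.X i ^ p ^ e))) :
    0 < c ∧ ∀ ε : ℝ, 0 < ε → ∀ᶠ n : ℕ in atTop,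
      (((X.ρ * X.f.natDegree : ℕ) : ℝ) * kapp (m + 1) c - ε) * (n : ℝ) ^ (m + 1) ≤
        ((Module.length k (D ⧸ I ^ n)).toNat : ℝ) := by
  classical
  have hp : p.Prime := Fact.out
  have : CharP (MvPowerSeries (Fin (m + 1)) k) p :=
    charP_of_injective_ringHom (f := (MvPowerSeries.C : k →+* MvPowerSeries (Fin (m + 1)) k))
      (RingHom.injective _) p
  have : CharP D p := charP_of_injective_ringHom hinj p
  have : IsNoetherianRing (MvPowerSeries (Fin (m + 1)) k) := by
    infer_instance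
  have : IsNoetherianRing D := IsNoetherianRing.of_finite (MvPowerSeries (Fin (m + 1)) k) D
  set t := X.s with ht
  set Q := p ^ t with hQdef
  have hQ : 0 < Q := pow_pos hp.pos t
  set A := MvPowerSeries (Fin (m + 1)) k with hA
  -- the map from `O` to `E`
  have hψ0 : X.f.eval₂ (Algebra.ofId A X.E : A →+* X.E) ⟨X.θ, X.θ_mem⟩ = 0 := by
    apply Subtype.ext
    have h1 := X.root
    rw [Polynomial.aeval_def] at h1
    have h2 := Polynomial.hom_eval₂ X.f (Algebra.ofId A X.E : A →+* X.E)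
      (algebraMap X.E D) ⟨X.θ, X.θ_mem⟩
    exact h2.trans h1
  let ψ : AdjoinRoot X.f →ₐ[A] X.E := AdjoinRoot.liftAlgHom X.f (Algebra.ofId A X.E)
    ⟨X.θ, X.θ_mem⟩ hψ0
  have hψroot : ψ (AdjoinRoot.root X.f) = ⟨X.θ, X.θ_mem⟩ :=
    AdjoinRoot.liftAlgHom_root _ _ _ _
  have hψmk : ∀ P : A[X], ((ψ (AdjoinRoot.mk X.f P) : X.E) : D) = aeval X.θ P := by
    intro P
    have h1 : ψ (AdjoinRoot.mk X.f P) = aeval (ψ (AdjoinRoot.root X.f)) P := by
      rw [← AdjoinRoot.aeval_eq, Polynomial.aeval_algHom_apply]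
    rw [h1, hψroot]
    have h2 := Polynomial.aeval_algHom_apply X.E.val (⟨X.θ, X.θ_mem⟩ : X.E) P
    exact h2.symm
  have hψof : ∀ x : A, ((ψ (AdjoinRoot.of X.f x) : X.E) : D) = algebraMap A D x := by
    intro x
    rw [← AdjoinRoot.mk_C, hψmk, Polynomial.aeval_C]
  have hψinj : Function.Injective ψ := by
    rw [injective_iff_map_eq_zero]
    intro o ho
    obtain ⟨P, rfl⟩ := AdjoinRoot.mk_surjective o
    have h1 : aeval X.θ P = 0 := by rw [← hψmk, ho]; rfl
    exact AdjoinRoot.mk_eq_zero.2 (X.dvd P h1)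
  -- the ideals
  let W : ℕ → Ideal X.E := fun n => Ideal.span {w : X.E | ∃ v ∈ I ^ n, (w : D) = v ^ Q}
  let J : ℕ → Ideal (AdjoinRoot X.f) := fun n => (W n).comap (ψ : AdjoinRoot X.f →+* X.E)
  let J' : ℕ → Ideal (AdjoinRoot X.f) := fun n =>
    Submodule.comap (LinearMap.mulLeft (AdjoinRoot X.f) (AdjoinRoot.of X.f X.g)) (J n)
  have hJ' : ∀ n o, o ∈ J' n ↔ ψ (AdjoinRoot.of X.f X.g * o) ∈ W n := by
    intro n o
    exact Iff.rfl
  have hWmul : ∀ n n', W n * W n' ≤ W (n + n') := by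
    intro n n'
    change Ideal.span _ * Ideal.span _ ≤ _
    rw [Ideal.span_mul_span', Ideal.span_le]
    rintro _ ⟨w, ⟨v, hv, hw⟩, w', ⟨v', hv', hw'⟩, rfl⟩
    refine Ideal.subset_span ⟨v * v', ?_, ?_⟩
    · rw [pow_add]
      exact Ideal.mul_mem_mul hv hv'
    · change (w : D) * (w' : D) = _
      rw [hw, hw', mul_pow]
  have hWanti : Antitone W := by
    intro n n' h
    refine Ideal.span_mono ?_
    rintro w ⟨v, hv, hw⟩
    exact ⟨v, Ideal.pow_le_pow_right h hv, hw⟩
  have hWmap : ∀ n, (W n).map (algebraMap X.E D) = Ideal.span {w | ∃ v ∈ I ^ n, w = v ^ Q} := by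
    intro n
    change Ideal.map _ (Ideal.span _) = _
    rw [Ideal.map_span]
    congr 1
    ext w
    constructor
    · rintro ⟨w', ⟨v, hv, hw'⟩, rfl⟩
      exact ⟨v, hv, hw'⟩
    · rintro ⟨v, hv, rfl⟩
      exact ⟨⟨v ^ Q, X.pow_mem v⟩, ⟨v, hv, rfl⟩, rfl⟩
  -- Frobenius powers
  obtain ⟨CA, hCA⟩ := pow_le_span_pow A (Ideal.span (Set.range MvPowerSeries.X))
    (IsNoetherian.noetherian _) Q hQ
  obtain ⟨C0, hC0⟩ := pow_le_span_pow D I (IsNoetherian.noetherian _) Q hQ
  have hJ1 : ((Ideal.span (Set.range MvPowerSeries.X)) ^ (Q * s + CA)).map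
      (AdjoinRoot.of X.f) ≤ J 1 := by
    rw [Ideal.map_le_iff_le_comap]
    refine (hCA s).trans ?_
    rw [Ideal.span_le]
    rintro _ ⟨v, hv, rfl⟩
    change ψ (AdjoinRoot.of X.f (v ^ Q)) ∈ W 1
    refine Ideal.subset_span ⟨algebraMap A D v, ?_, ?_⟩
    · rw [pow_one]
      exact hs (Ideal.mem_map_of_mem _ hv)
    · rw [hψof, map_pow]
  have hkey := core' k p m X.f X.monic X.deg X.a X.b X.δ X.g X.hab X.δ_ne X.g_ne J
    (fun n n' => (Ideal.le_comap_mul _).trans (Ideal.comap_mono (hWmul n n')))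
    (fun n n' h => Ideal.comap_mono (hWanti h)) (Q * s + CA) hJ1
    (fun e => p ^ (e + t)) N (fun e => ⟨e + t, rfl⟩) ?_ (c / (Q : ℝ)) ?_ ?_ J' ?_ ?_
  · obtain ⟨hc0, hlow⟩ := hkey
    have hQR : (0 : ℝ) < Q := by exact_mod_cast hQ
    have hcpos : 0 < c := by
      by_contra h
      exact absurd hc0 (not_lt.2 (div_nonpos_of_nonpos_of_nonneg (not_lt.1 h) hQR.le))
    refine ⟨hcpos, ?_⟩
    have hfinD : ∀ n, Module.length k (D ⧸ I ^ n) ≠ ⊤ := by
      intro n
      refine length_map_pow_ne_top k (m + 1) D (s * n) (I ^ n) ?_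
      rw [pow_mul, Ideal.map_pow]
      exact Ideal.pow_right_mono hs n
    refine scale_liminf (m + 1) Q C0 X.ρ X.f.natDegree hQ (kapp (m + 1) c)
      (kapp (m + 1) (c / Q)) ?_ _ (fun n => ((Module.length k (AdjoinRoot X.f ⧸ J' n)).toNat : ℝ))
      ?_ hlow
    · rw [kapp, kapp, div_pow]
      field_simp
    · intro n n0 hn
      have h1 := domain_len k A D p X (W n0) ψ hψroot (J' n0) (hJ' n0)
      have h2 : I ^ n ≤ (W n0).map (algebraMap X.E D) := by
        rw [hWmap]
        exact (Ideal.pow_le_pow_right hn).trans (hC0 n0)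
      have h3 : Module.length k (D ⧸ (W n0).map (algebraMap X.E D)) ≤
          Module.length k (D ⧸ I ^ n) :=
        Module.length_le_of_surjective (Ideal.Quotient.factorₐ k h2).toLinearMap
          (Ideal.Quotient.factor_surjective h2)
      have h4 := h1.trans h3
      have h5 : Module.length k (AdjoinRoot X.f ⧸ J' n0) ≠ ⊤ := by
        intro h
        rw [h, ENat.mul_top (by exact_mod_cast X.ρ_pos.ne')] at h4
        exact hfinD n (top_le_iff.1 h4)
      rw [← ENat.natCast_toNat h5, ← ENat.natCast_toNat (hfinD n)] at h4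
      exact_mod_cast h4
  · exact (tendsto_pow_atTop_atTop_of_one_lt hp.one_lt).comp (tendsto_add_atTop_nat t)
  · have h1 := hc.div_const (Q : ℝ)
    refine h1.congr fun e => ?_
    rw [div_div, hQdef]
    push_cast
    rw [pow_add]
  · intro e u hu
    have hu' : ψ u ∈ W (N e) := hu
    -- membership of `W (N e)` in the Frobenius power
    have h1 : W (N e) ≤ Ideal.span (Set.range fun i =>
        algebraMap A X.E (MvPowerSeries.X i ^ p ^ (e + t))) := by
      change Ideal.span _ ≤ _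
      rw [Ideal.span_le]
      rintro w ⟨v, hv, hw⟩
      obtain ⟨d, hd⟩ := (Ideal.mem_span_range_iff_exists_fun).1 (hN e hv)
      have h2 : w = ∑ i, (⟨d i ^ Q, X.pow_mem (d i)⟩ : X.E) *
          algebraMap A X.E (MvPowerSeries.X i ^ p ^ (e + t)) := by
        apply Subtype.ext
        have hsum : (∑ i, d i * algebraMap A D (MvPowerSeries.X i ^ p ^ e)) ^ Q =
            ∑ i, (d i) ^ Q * algebraMap A D (MvPowerSeries.X i ^ p ^ (e + t)) := by
          rw [hQdef, sum_pow_char_pow]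
          refine Finset.sum_congr rfl fun i _ => ?_
          rw [mul_pow, ← map_pow, ← pow_mul, ← pow_add]
        rw [hw, ← hd, hsum, AddSubmonoidClass.coe_finsetSum]
        rfl
      rw [h2]
      exact Ideal.sum_mem _ fun i _ => Ideal.mul_mem_left _ _ (Ideal.subset_span ⟨i, rfl⟩)
    obtain ⟨ε, hε⟩ := (Ideal.mem_span_range_iff_exists_fun).1 (h1 hu')
    choose h hh using fun i => X.denomE (ε i : D) (ε i).2
    have h3 : AdjoinRoot.of X.f X.g * u = ∑ i, AdjoinRoot.mk X.f (h i) *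
        AdjoinRoot.of X.f (MvPowerSeries.X i ^ p ^ (e + t)) := by
      have e1 : ∀ i, ((ψ (AdjoinRoot.mk X.f (h i) *
          AdjoinRoot.of X.f (MvPowerSeries.X i ^ p ^ (e + t))) : X.E) : D) =
          aeval X.θ (h i) * algebraMap A D (MvPowerSeries.X i ^ p ^ (e + t)) := by
        intro i
        rw [map_mul, ← hψof, ← hψmk]
        rfl
      apply hψinj
      apply Subtype.ext
      calc ((ψ (AdjoinRoot.of X.f X.g * u) : X.E) : D)
          = algebraMap A D X.g * ((ψ u : X.E) : D) := by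
            rw [map_mul, ← hψof]
            rfl
        _ = algebraMap A D X.g *
            ∑ i, (ε i : D) * algebraMap A D (MvPowerSeries.X i ^ p ^ (e + t)) := by
            rw [← hε, AddSubmonoidClass.coe_finsetSum]
            rfl
        _ = ∑ i, aeval X.θ (h i) * algebraMap A D (MvPowerSeries.X i ^ p ^ (e + t)) := by
            rw [Finset.mul_sum]
            refine Finset.sum_congr rfl fun i _ => ?_
            rw [← hh i, ← mul_assoc, Algebra.smul_def]
        _ = _ := by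
            rw [map_sum, AddSubmonoidClass.coe_finsetSum]
            exact Finset.sum_congr rfl fun i _ => (e1 i).symm
    rw [h3]
    exact Ideal.sum_mem _ fun i _ => Ideal.mul_mem_left _ _
      (Ideal.mem_map_of_mem _ (Ideal.subset_span ⟨i, rfl⟩))
  · intro n o ho
    rw [hJ']
    exact Ideal.mul_mem_left (J n) (AdjoinRoot.of X.f X.g) ho
  · intro n u hu
    exact hu

end HMTW

end

section

set_option autoImplicit false

open Filter Polynomial

namespace HMTW

theorem length_smul_top {k S D : Type*} [Field k] [CommRing S] [CommRing D] [Algebra S D]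
    [IsLocalRing S] [Algebra k S] [Algebra k D] [IsScalarTower k S D]
    (hres : Function.Surjective ((IsLocalRing.residue S).comp (algebraMap k S)))
    (J : Ideal S) :
    Module.length S (D ⧸ (J • ⊤ : Submodule S D)) =
      Module.length k (D ⧸ J.map (algebraMap S D)) := by
  rw [Ideal.smul_top_eq_map]
  rw [(Submodule.Quotient.restrictScalarsEquiv S (J.map (algebraMap S D))).length_eq]
  exact length_eq_of_residue k S hres _

theorem charP_mvPowerSeries (k : Type*) [Field k] (p : ℕ) [CharP k p] (d : ℕ) :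
    CharP (MvPowerSeries (Fin d) k) p :=
  charP_of_injective_ringHom (f := (MvPowerSeries.C : k →+* MvPowerSeries (Fin d) k))
    (RingHom.injective _) p

/-- G6 : conclusion for prime quotients -/
theorem domain_bound (k : Type) [Field k] (p : ℕ) [Fact p.Prime] [CharP k p] (m : ℕ) (S : Type)
    [CommRing S] [IsLocalRing S] [Algebra (MvPowerSeries (Fin (m + 1)) k) S]
    [Module.Finite (MvPowerSeries (Fin (m + 1)) k) S]
    (hres : Function.Surjective ((IsLocalRing.residue S).comp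
      ((algebraMap (MvPowerSeries (Fin (m + 1)) k) S).comp MvPowerSeries.C)))
    (P : Ideal S) [P.IsPrime] (I : Ideal S) (s : ℕ)
    (hs : ((Ideal.span (Set.range MvPowerSeries.X)) ^ s).map
        (algebraMap (MvPowerSeries (Fin (m + 1)) k) S) ≤ I)
    (N : ℕ → ℕ) (c : ℝ) (hc : Tendsto (fun e => (N e : ℝ) / (p : ℝ) ^ e) atTop (nhds c))
    (hN : ∀ e, I ^ N e ≤ Ideal.span (Set.range fun i =>
      algebraMap (MvPowerSeries (Fin (m + 1)) k) S (MvPowerSeries.X i ^ p ^ e))) :
    ∃ ρ : ℕ, (ρ ≠ 0 → 0 < c) ∧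
      Up S ((Ideal.span (Set.range MvPowerSeries.X)).map
        (algebraMap (MvPowerSeries (Fin (m + 1)) k) S)) (m + 1) (S ⧸ P) ρ ∧
      Lo S I (m + 1) (kapp (m + 1) c) (S ⧸ P) ρ := by
  classical
  let _ : Algebra k S := ((algebraMap (MvPowerSeries (Fin (m + 1)) k) S).comp
    (algebraMap k (MvPowerSeries (Fin (m + 1)) k))).toAlgebra
  have : IsScalarTower k (MvPowerSeries (Fin (m + 1)) k) S := IsScalarTower.of_algebraMap_eq' rfl
  have hres' : Function.Surjective ((IsLocalRing.residue S).comp (algebraMap k S)) := hres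
  -- the upper lengths
  have hJ : ∀ n, Module.length S ((S ⧸ P) ⧸ (((Ideal.span (Set.range MvPowerSeries.X)).map
        (algebraMap (MvPowerSeries (Fin (m + 1)) k) S)) ^ n • ⊤ : Submodule S (S ⧸ P))) =
      Module.length k ((S ⧸ P) ⧸ ((Ideal.span (Set.range MvPowerSeries.X)) ^ n).map
        (algebraMap (MvPowerSeries (Fin (m + 1)) k) (S ⧸ P))) := by
    intro n
    rw [length_smul_top hres', ← Ideal.map_pow, Ideal.map_map]
    rfl
  have hI : ∀ n, Module.length S ((S ⧸ P) ⧸ (I ^ n • ⊤ : Submodule S (S ⧸ P))) =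
      Module.length k ((S ⧸ P) ⧸ (I.map (algebraMap S (S ⧸ P))) ^ n) := by
    intro n
    rw [length_smul_top hres', Ideal.map_pow]
  by_cases hinj : Function.Injective (algebraMap (MvPowerSeries (Fin (m + 1)) k) (S ⧸ P))
  · have := charP_mvPowerSeries k p (m + 1)
    have : IsDomain (MvPowerSeries (Fin (m + 1)) k) := NoZeroDivisors.to_isDomain _
    obtain ⟨X⟩ := exists_domData (MvPowerSeries (Fin (m + 1)) k) (S ⧸ P) hinj p
    have hlow := domain_lower k m (S ⧸ P) hinj p X (I.map (algebraMap S (S ⧸ P))) s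
      (by
        have := Ideal.map_mono (f := algebraMap S (S ⧸ P)) hs
        rwa [Ideal.map_map] at this) N c hc
      (by
        intro e
        rw [← Ideal.map_pow]
        refine (Ideal.map_mono (hN e)).trans (le_of_eq ?_)
        rw [Ideal.map_span, ← Set.range_comp]
        rfl)
    refine ⟨X.ρ * X.f.natDegree, fun _ => hlow.1, ?_, ?_⟩
    · intro ε hε
      filter_upwards [domain_upper k m (S ⧸ P) hinj p X ε hε] with n hn
      rw [hJ]
      exact hn
    · intro ε hε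
      filter_upwards [hlow.2 ε hε] with n hn
      rw [hI]
      exact hn
  · obtain ⟨h, h0, hh⟩ : ∃ h : MvPowerSeries (Fin (m + 1)) k,
        algebraMap _ (S ⧸ P) h = 0 ∧ h ≠ 0 := by
      rw [injective_iff_map_eq_zero] at hinj
      push Not at hinj
      exact hinj
    refine ⟨0, fun h => absurd rfl h, ?_, ?_⟩
    · intro ε hε
      filter_upwards [torsion_upper k m (S ⧸ P) h hh h0 ε hε] with n hn
      rw [hJ]
      simpa using hn
    · intro ε hε
      refine Filter.Eventually.of_forall fun n => ?_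
      have h1 : ((((0 : ℕ) : ℝ)) * kapp (m + 1) c - ε) * (n : ℝ) ^ (m + 1) ≤ 0 := by
        have : (0 : ℝ) ≤ ε * (n : ℝ) ^ (m + 1) := by positivity
        simp only [Nat.cast_zero, zero_mul, zero_sub, neg_mul]
        linarith
      exact h1.trans (by positivity)

end HMTW

end
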